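import Mathlib

namespace Q120.BS

/-- a state: the label at each position -/
abbrev St := ℕ → ℕ

/-- exchange the labels at the positions `i`, `i+1` -/
def sw (i : ℕ) (x : St) : St :=
  fun k => if k = i then x (i + 1) else if k = i + 1 then x i else x k

lemma sw_left (i : ℕ) (x : St) : sw i x i = x (i + 1) := by simp [sw]

lemma sw_right (i : ℕ) (x : St) : sw i x (i + 1) = x i := by simp [sw]

lemma sw_other {i k : ℕ} (x : St) (h1 : k ≠ i) (h2 : k ≠ i + 1) : sw i x k = x k := by
  simp [sw, h1, h2]

lemma sw_sw (i : ℕ) (x : St) : sw i (sw i x) = x := by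
  funext k
  by_cases h1 : k = i
  · subst h1; simp [sw]
  · by_cases h2 : k = i + 1
    · subst h2; simp [sw]
    · simp [sw, h1, h2]

/-- new position of the wire at `p` after the letter `i` -/
def mv (p i : ℕ) : ℕ := if i = p then p + 1 else if i + 1 = p then i else p

lemma sw_mv (i k : ℕ) (x : St) : sw i x (mv k i) = x k := by
  unfold mv sw
  split_ifs <;> first | omega | (subst_vars; rfl)

lemma mv_mv (p i : ℕ) : mv (mv p i) i = p := by
  unfold mv; split_ifs <;> omega

lemma mv_inj {p r i : ℕ} (h : mv p i = mv r i) : p = r := by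
  have := congrArg (fun z => mv z i) h
  simpa [mv_mv] using this

lemma sw_eq (i k : ℕ) (x : St) : sw i x k = x (mv k i) := by
  have := sw_mv i (mv k i) x
  rwa [mv_mv] at this

lemma sw_inj {i : ℕ} {x : St} (h : Function.Injective x) : Function.Injective (sw i x) := by
  intro a b hab
  rw [sw_eq, sw_eq] at hab
  exact mv_inj (h hab)

/-- final position of the wire starting at `p` -/
def fin : ℕ → List ℕ → ℕ
  | p, [] => p
  | p, i :: R => fin (mv p i) R

/-- final state -/
def run : St → List ℕ → St
  | x, [] => x
  | x, i :: R => run (sw i x) R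

/-- every letter is used as an ascent -/
def Red : St → List ℕ → Prop
  | _, [] => True
  | x, i :: R => x i < x (i + 1) ∧ Red (sw i x) R

/-- the contribution of one letter to the crossing list of the label `a` -/
def part (a : ℕ) (x : St) (i : ℕ) : List ℕ :=
  if x i = a then [x (i + 1)] else if x (i + 1) = a then [x i] else []

/-- the labels crossed by the label `a`, in order -/
def loc (a : ℕ) : St → List ℕ → List ℕ
  | _, [] => []
  | x, i :: R => part a x i ++ loc a (sw i x) R

@[simp] lemma fin_nil (p : ℕ) : fin p [] = p := rfl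
@[simp] lemma fin_cons (p i : ℕ) (R : List ℕ) : fin p (i :: R) = fin (mv p i) R := rfl
@[simp] lemma run_nil (x : St) : run x [] = x := rfl
@[simp] lemma run_cons (x : St) (i : ℕ) (R : List ℕ) : run x (i :: R) = run (sw i x) R := rfl
@[simp] lemma Red_nil (x : St) : Red x [] := trivial
@[simp] lemma Red_cons (x : St) (i : ℕ) (R : List ℕ) :
    Red x (i :: R) ↔ x i < x (i + 1) ∧ Red (sw i x) R := Iff.rfl
@[simp] lemma loc_nil (a : ℕ) (x : St) : loc a x [] = [] := rfl
@[simp] lemma loc_cons (a : ℕ) (x : St) (i : ℕ) (R : List ℕ) :
    loc a x (i :: R) = part a x i ++ loc a (sw i x) R := rfl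

lemma run_append (x : St) (A B : List ℕ) : run x (A ++ B) = run (run x A) B := by
  induction A generalizing x with
  | nil => rfl
  | cons i A ih => simp [ih]

lemma fin_append (p : ℕ) (A B : List ℕ) : fin p (A ++ B) = fin (fin p A) B := by
  induction A generalizing p with
  | nil => rfl
  | cons i A ih => simp [ih]

lemma Red_append (x : St) (A B : List ℕ) : Red x (A ++ B) ↔ Red x A ∧ Red (run x A) B := by
  induction A generalizing x with
  | nil => simp
  | cons i A ih => simp [ih, and_assoc]

lemma loc_append (a : ℕ) (x : St) (A B : List ℕ) :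
    loc a x (A ++ B) = loc a x A ++ loc a (run x A) B := by
  induction A generalizing x with
  | nil => rfl
  | cons i A ih => simp [ih]

lemma run_fin (x : St) (R : List ℕ) (p : ℕ) : run x R (fin p R) = x p := by
  induction R generalizing x p with
  | nil => rfl
  | cons i R ih => rw [run_cons, fin_cons, ih, sw_mv]

lemma run_inj {x : St} (R : List ℕ) (h : Function.Injective x) :
    Function.Injective (run x R) := by
  induction R generalizing x with
  | nil => exact h
  | cons i R ih => exact ih (sw_inj h)

lemma fin_inj {p r : ℕ} (R : List ℕ) (h : fin p R = fin r R) : p = r := by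
  induction R generalizing p r with
  | nil => exact h
  | cons i R ih => exact mv_inj (ih h)

lemma fin_eq_of_run {x : St} {R S : List ℕ} (hx : Function.Injective x)
    (h : run x R = run x S) (p : ℕ) : fin p R = fin p S := by
  apply run_inj R hx
  rw [run_fin, h, run_fin]

lemma mem_part {x : St} (hx : Function.Injective x) {a b i : ℕ} :
    b ∈ part a x i ↔ (x i = a ∧ x (i + 1) = b) ∨ (x i = b ∧ x (i + 1) = a) := by
  have hne : x i ≠ x (i + 1) := fun h => by have := hx h; omega
  unfold part
  split_ifs with h1 h2
  · subst h1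
    constructor
    · intro h; left; exact ⟨rfl, (List.mem_singleton.1 h).symm⟩
    · rintro (⟨_, h⟩ | ⟨_, h⟩)
      · exact List.mem_singleton.2 h.symm
      · exact absurd h.symm hne
  · subst h2
    constructor
    · intro h; right; exact ⟨(List.mem_singleton.1 h).symm, rfl⟩
    · rintro (⟨h, _⟩ | ⟨h, _⟩)
      · exact absurd h h1
      · exact List.mem_singleton.2 h.symm
  · constructor
    · intro h; simp at h
    · rintro (⟨h, _⟩ | ⟨_, h⟩)
      · exact absurd h h1
      · exact absurd h h2

lemma part_mem_symm {x : St} (hx : Function.Injective x) {a b i : ℕ} :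
    b ∈ part a x i ↔ a ∈ part b x i := by
  rw [mem_part hx, mem_part hx]; tauto

lemma part_eq_nil {x : St} {a i : ℕ} (h1 : x i ≠ a) (h2 : x (i + 1) ≠ a) : part a x i = [] := by
  simp [part, h1, h2]

lemma part_left (x : St) (i : ℕ) : part (x i) x i = [x (i + 1)] := by simp [part]

lemma part_right {x : St} (hx : Function.Injective x) (i : ℕ) :
    part (x (i + 1)) x i = [x i] := by
  have hne : x i ≠ x (i + 1) := fun h => by have := hx h; omega
  simp [part, hne]

lemma loc_mem_symm {x : St} (hx : Function.Injective x) {a b : ℕ} (R : List ℕ) :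
    b ∈ loc a x R ↔ a ∈ loc b x R := by
  induction R generalizing x with
  | nil => simp
  | cons i R ih =>
    rw [loc_cons, loc_cons, List.mem_append, List.mem_append, part_mem_symm hx, ih (sw_inj hx)]

end Q120.BS
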