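import Pool.Agent.Q120.BS.Basic

namespace Q120.BS

/-- one commutation move -/
inductive CS : List ℕ → List ℕ → Prop
  | mk (A : List ℕ) (i j : ℕ) (B : List ℕ) (h : i + 1 < j ∨ j + 1 < i) :
      CS (A ++ i :: j :: B) (A ++ j :: i :: B)

/-- same commutation class -/
def CE : List ℕ → List ℕ → Prop := Relation.ReflTransGen CS

lemma CS.symm {R S : List ℕ} (h : CS R S) : CS S R := by
  obtain ⟨A, i, j, B, h⟩ := h
  exact CS.mk A j i B h.symm

lemma CE.refl (R : List ℕ) : CE R R := Relation.ReflTransGen.refl

lemma CE.trans {R S T : List ℕ} (h : CE R S) (h' : CE S T) : CE R T :=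
  Relation.ReflTransGen.trans h h'

lemma CE.symm {R S : List ℕ} (h : CE R S) : CE S R := by
  induction h with
  | refl => exact CE.refl _
  | tail _ h2 ih => exact CE.trans (Relation.ReflTransGen.single h2.symm) ih

lemma CE.single {R S : List ℕ} (h : CS R S) : CE R S := Relation.ReflTransGen.single h

lemma CE.cons {R S : List ℕ} (i : ℕ) (h : CE R S) : CE (i :: R) (i :: S) := by
  induction h with
  | refl => exact CE.refl _
  | tail _ h2 ih =>
    refine CE.trans ih (CE.single ?_)
    obtain ⟨A, k, j, B, h⟩ := h2
    exact CS.mk (i :: A) k j B h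

lemma CE.append_left {R S : List ℕ} (A : List ℕ) (h : CE R S) : CE (A ++ R) (A ++ S) := by
  induction A with
  | nil => exact h
  | cons i A ih => exact CE.cons i ih

lemma CE.append_right {R S : List ℕ} (h : CE R S) (B : List ℕ) : CE (R ++ B) (S ++ B) := by
  induction h with
  | refl => exact CE.refl _
  | tail _ h2 ih =>
    refine CE.trans ih (CE.single ?_)
    obtain ⟨A, k, j, C, h⟩ := h2
    have := CS.mk A k j (C ++ B) h
    simpa using this

lemma CE.reverse {R S : List ℕ} (h : CE R S) : CE R.reverse S.reverse := by
  induction h with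
  | refl => exact CE.refl _
  | tail _ h2 ih =>
    refine CE.trans ih (CE.single ?_)
    obtain ⟨A, k, j, B, h⟩ := h2
    have := CS.mk B.reverse j k A.reverse h.symm
    simpa using this

lemma CE.swap_head {i j : ℕ} (B : List ℕ) (h : i + 1 < j ∨ j + 1 < i) :
    CE (i :: j :: B) (j :: i :: B) := CE.single (CS.mk [] i j B h)

lemma sw_comm {i j : ℕ} (x : St) (h : i + 1 < j ∨ j + 1 < i) : sw i (sw j x) = sw j (sw i x) := by
  funext k
  unfold sw
  split_ifs <;> omega

lemma CE.run {R S : List ℕ} (h : CE R S) (x : St) : run x R = run x S := by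
  induction h with
  | refl => rfl
  | tail _ h2 ih =>
    rw [ih]
    obtain ⟨A, i, j, B, h⟩ := h2
    rw [run_append, run_append]
    simp only [run_cons]
    rw [sw_comm _ h]

lemma CE.fin {R S : List ℕ} (h : CE R S) (p : ℕ) : fin p R = fin p S :=
  fin_eq_of_run (x := id) Function.injective_id (h.run id) p

lemma CE.length {R S : List ℕ} (h : CE R S) : R.length = S.length := by
  induction h with
  | refl => rfl
  | tail _ h2 ih =>
    rw [ih]
    obtain ⟨A, i, j, B, h⟩ := h2
    simp

lemma CE.mem {R S : List ℕ} (h : CE R S) (k : ℕ) : k ∈ R ↔ k ∈ S := by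
  induction h with
  | refl => rfl
  | tail _ h2 ih =>
    rw [ih]
    obtain ⟨A, i, j, B, h⟩ := h2
    simp only [List.mem_append, List.mem_cons]
    tauto

lemma part_far {a i j : ℕ} (x : St) (h : i + 1 < j ∨ j + 1 < i) : part a (sw i x) j = part a x j := by
  unfold part
  rw [sw_other x (by omega) (by omega), sw_other x (by omega) (by omega)]

lemma part_comm {x : St} (hx : Function.Injective x) {i j : ℕ} (a : ℕ)
    (h : i + 1 < j ∨ j + 1 < i) : part a x i ++ part a x j = part a x j ++ part a x i := by
  by_cases h1 : part a x i = []
  · simp [h1]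
  · have h2 : part a x j = [] := by
      by_contra h2
      obtain ⟨b, hb⟩ := List.exists_mem_of_ne_nil _ h1
      obtain ⟨c, hc⟩ := List.exists_mem_of_ne_nil _ h2
      rw [mem_part hx] at hb hc
      rcases hb with ⟨hb, _⟩ | ⟨_, hb⟩ <;> rcases hc with ⟨hc, _⟩ | ⟨_, hc⟩ <;>
        (have := hx (hb.trans hc.symm); omega)
    simp [h2]

lemma CE.Red {R S : List ℕ} (h : CE R S) (x : St) : Red x R ↔ Red x S := by
  induction h with
  | refl => rfl
  | tail _ h2 ih =>
    rw [ih]
    obtain ⟨A, i, j, B, h⟩ := h2
    rw [Red_append, Red_append]
    simp only [Red_cons]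
    rw [sw_comm _ h, sw_other (i := i) _ (by omega) (by omega), sw_other (i := i) _ (by omega) (by omega),
      sw_other (i := j) _ (by omega) (by omega), sw_other (i := j) _ (by omega) (by omega)]
    tauto

lemma CE.loc {R S : List ℕ} (h : CE R S) {x : St} (hx : Function.Injective x) (a : ℕ) :
    loc a x R = loc a x S := by
  induction h with
  | refl => rfl
  | tail _ h2 ih =>
    rw [ih]
    obtain ⟨A, i, j, B, h⟩ := h2
    rw [loc_append, loc_append]
    simp only [loc_cons]
    rw [sw_comm _ h, part_far _ h, part_far _ h.symm]
    congr 1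
    rw [← List.append_assoc, part_comm (run_inj A hx) a h, List.append_assoc]

/-- if the first crossings of `a` and `b` are with each other, they are adjacent and this crossing
can be moved to the front -/
lemma pull {x : St} (hx : Function.Injective x) {u v : ℕ} {R l1 l2 : List ℕ}
    (h1 : loc (x u) x R = x v :: l1) (h2 : loc (x v) x R = x u :: l2) :
    (v = u + 1 ∧ ∃ R', CE R (u :: R')) ∨ (u = v + 1 ∧ ∃ R', CE R (v :: R')) := by
  induction R generalizing x with
  | nil => simp at h1
  | cons k R ih =>
    have hpu : part (x u) x k ≠ [] → (k = u ∧ v = u + 1) ∨ (k = v ∧ u = v + 1) := by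
      intro hne
      rw [loc_cons] at h1
      obtain ⟨b, hb⟩ := List.exists_mem_of_ne_nil _ hne
      have hb' := (mem_part hx).1 hb
      unfold part at h1
      rcases hb' with ⟨hb1, _⟩ | ⟨_, hb1⟩
      · have hk := hx hb1
        subst hk
        simp at h1
        left
        have := hx h1.1
        omega
      · have hk := hx hb1
        have hkk : x k ≠ x u := fun hh => by have := hx hh; omega
        rw [if_neg hkk, if_pos hb1] at h1
        simp at h1
        right
        have := hx h1.1
        omega
    have hpv : part (x v) x k ≠ [] → (k = u ∧ v = u + 1) ∨ (k = v ∧ u = v + 1) := by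
      intro hne
      rw [loc_cons] at h2
      obtain ⟨b, hb⟩ := List.exists_mem_of_ne_nil _ hne
      have hb' := (mem_part hx).1 hb
      unfold part at h2
      rcases hb' with ⟨hb1, _⟩ | ⟨_, hb1⟩
      · have hk := hx hb1
        subst hk
        simp at h2
        right
        have := hx h2.1
        omega
      · have hk := hx hb1
        have hkk : x k ≠ x v := fun hh => by have := hx hh; omega
        rw [if_neg hkk, if_pos hb1] at h2
        simp at h2
        left
        have := hx h2.1
        omega
    by_cases hu : part (x u) x k = []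
    · by_cases hv : part (x v) x k = []
      · rw [loc_cons, hu, List.nil_append] at h1
        rw [loc_cons, hv, List.nil_append] at h2
        -- k does not touch u, v
        have hku : k ≠ u := by
          rintro rfl; simp [part] at hu
        have hku' : k + 1 ≠ u := by
          rintro rfl; rw [part_right hx] at hu; simp at hu
        have hkv : k ≠ v := by
          rintro rfl; simp [part] at hv
        have hkv' : k + 1 ≠ v := by
          rintro rfl; rw [part_right hx] at hv; simp at hv
        have hxu : sw k x u = x u := sw_other x (by omega) (by omega)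
        have hxv : sw k x v = x v := sw_other x (by omega) (by omega)
        have := ih (x := sw k x) (sw_inj hx) (by rw [hxu, hxv]; exact h1)
          (by rw [hxu, hxv]; exact h2)
        rcases this with ⟨hvu, R', hR'⟩ | ⟨huv, R', hR'⟩
        · left
          refine ⟨hvu, k :: R', ?_⟩
          refine CE.trans (CE.cons k hR') (CE.swap_head _ ?_)
          omega
        · right
          refine ⟨huv, k :: R', ?_⟩
          refine CE.trans (CE.cons k hR') (CE.swap_head _ ?_)
          omega
      · rcases hpv hv with ⟨rfl, h⟩ | ⟨rfl, h⟩
        · left; exact ⟨h, R, CE.refl _⟩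
        · right; exact ⟨h, R, CE.refl _⟩
    · rcases hpu hu with ⟨rfl, h⟩ | ⟨rfl, h⟩
      · left; exact ⟨h, R, CE.refl _⟩
      · right; exact ⟨h, R, CE.refl _⟩

/-- the crossing lists determine the commutation class -/
lemma CE_of_loc {x : St} (hx : Function.Injective x) {R S : List ℕ}
    (h : ∀ u, loc (x u) x R = loc (x u) x S) : CE R S := by
  induction R generalizing x S with
  | nil =>
    cases S with
    | nil => exact CE.refl _
    | cons k S =>
      have := h k
      rw [loc_cons, part_left] at this
      simp at this
  | cons i R ih =>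
    have h1 := h i
    have h2 := h (i + 1)
    rw [loc_cons, part_left] at h1
    rw [loc_cons, part_right hx] at h2
    have := pull hx (u := i) (v := i + 1) h1.symm h2.symm
    have hS : ∃ S', CE S (i :: S') := by
      rcases this with ⟨_, h⟩ | ⟨h, _⟩
      · exact h
      · omega
    obtain ⟨S', hS'⟩ := hS
    refine CE.trans (CE.cons i (ih (x := sw i x) (sw_inj hx) (S := S') ?_)) hS'.symm
    intro u
    have h3 := h (mv u i)
    rw [hS'.loc hx, loc_cons, loc_cons] at h3
    rw [sw_eq]
    exact List.append_cancel_left h3

/-- `b` next to `a`, the first crossing of `b` is with `a`, the wire `a` only moves down -/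
lemma pull_adj {s : St} (hs : Function.Injective s) {u : ℕ} {B l : List ℕ}
    (h : loc (s (u + 1)) s B = s u :: l)
    (hdn : ∀ A C k, B = A ++ k :: C → k + 1 ≠ fin u A) : ∃ B', CE B (u :: B') := by
  induction B generalizing s with
  | nil => simp at h
  | cons k B ih =>
    have hk1 : k + 1 ≠ u := hdn [] B k rfl
    by_cases hku : k = u
    · subst hku; exact ⟨B, CE.refl _⟩
    by_cases hku1 : k = u + 1
    · subst hku1
      rw [loc_cons, part_left] at h
      simp at h
      have := hs h.1
      omega
    have hmv : mv u k = u := by unfold mv; split_ifs <;> omega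
    rw [loc_cons, part_eq_nil (fun hh => by have := hs hh; omega)
      (fun hh => by have := hs hh; omega), List.nil_append] at h
    have hxu : sw k s u = s u := sw_other s (by omega) (by omega)
    have hxv : sw k s (u + 1) = s (u + 1) := sw_other s (by omega) (by omega)
    obtain ⟨B', hB'⟩ := ih (s := sw k s) (sw_inj hs) (by rw [hxu, hxv]; exact h) (by
      intro A C k' hB
      have := hdn (k :: A) C k' (by rw [hB]; rfl)
      rwa [fin_cons, hmv] at this)
    exact ⟨k :: B', CE.trans (CE.cons k hB') (CE.swap_head _ (by omega))⟩

lemma run_reverse (x : St) (R : List ℕ) : run (run x R) R.reverse = x := by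
  induction R generalizing x with
  | nil => rfl
  | cons i R ih =>
    rw [run_cons, List.reverse_cons, run_append, ih, run_cons, run_nil, sw_sw]

lemma loc_reverse {x : St} (hx : Function.Injective x) (a : ℕ) (R : List ℕ) :
    loc a (run x R) R.reverse = (loc a x R).reverse := by
  induction R generalizing x with
  | nil => rfl
  | cons i R ih =>
    rw [run_cons, List.reverse_cons, loc_append, ih (sw_inj hx), run_reverse, loc_cons, loc_cons,
      loc_nil, List.append_nil, List.reverse_append]
    congr 1
    have hne : x i ≠ x (i + 1) := fun h => by have := hx h; omega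
    unfold part
    rw [sw_left, sw_right]
    by_cases h1 : x i = a
    · have h2 : x (i + 1) ≠ a := fun h => hne (h1.trans h.symm)
      simp [h1, h2]
    · by_cases h2 : x (i + 1) = a
      · simp [h1, h2]
      · simp [h1, h2]

end Q120.BS
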