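import Pool.Agent.Q120.BS.Hecke

namespace Q120.BS

lemma W_zero {q : ℤ} {R : List ℕ} {y x : ℕ} (hU : Up y R) (h : y < x) :
    W q (fin y R) R x = 0 := by
  induction R generalizing y x with
  | nil => unfold W; rw [if_neg]; simp; omega
  | cons i R ih =>
    rw [Up_cons] at hU
    have hm : mv y i ≤ y := by unfold mv; have := hU.1; split_ifs <;> omega
    rw [fin_cons]
    by_cases h1 : x = i
    · subst h1
      rw [W_left, ih hU.2 (by omega), ih hU.2 (by omega)]; simp
    · by_cases h2 : x = i + 1
      · subst h2
        have := hU.1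
        rw [W_right, ih hU.2 (by omega), ih hU.2 (by omega)]; simp
      · rw [W_other _ _ _ h1 h2, ih hU.2 (by omega)]; simp

lemma W_pos {q : ℤ} (hq : 0 < q) {R : List ℕ} {y : ℕ} (hU : Up y R) :
    0 < W q (fin y R) R y := by
  induction R generalizing y with
  | nil => unfold W; simp
  | cons i R ih =>
    rw [Up_cons] at hU
    rw [fin_cons]
    have := ih hU.2
    by_cases h2 : y = i + 1
    · subst h2
      have hm : mv (i + 1) i = i := by simp [mv]
      rw [hm] at this ⊢
      rw [W_right]
      have h3 := W_nonneg hq.le (fin i R) R (i + 1)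
      positivity
    · have hm : mv y i = y := by unfold mv; have := hU.1; split_ifs <;> omega
      rw [hm] at this ⊢
      rw [W_other _ _ _ (fun h => hU.1 h.symm) h2]
      positivity

lemma flip_base {q : ℤ} (hq : 0 < q) {B : List ℕ} {i x : ℕ} (hB : Up i B) (hx : x ≤ i) :
    W q (fin i B) ([i, i + 1, i] ++ B) x ≤ W q (fin i B) ([i + 1, i, i + 1] ++ B) x ∧
    (x = i → W q (fin i B) ([i, i + 1, i] ++ B) x < W q (fin i B) ([i + 1, i, i + 1] ++ B) x) := by
  have h0 := W_pos hq hB
  have h1 : W q (fin i B) B (i + 1) = 0 := W_zero hB (by omega)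
  have h2 : W q (fin i B) B (i + 2) = 0 := W_zero hB (by omega)
  simp only [List.cons_append, List.nil_append]
  by_cases hxi : x = i
  · subst hxi
    have e1 : W q (fin x B) (x :: (x + 1) :: x :: B) x = (1 + 2 * q) * W q (fin x B) B x := by
      rw [W_left, W_other _ _ _ (by omega) (by omega), W_left, W_left, W_right,
        W_other _ _ _ (by omega) (by omega), h1]
      rw [show x + 1 + 1 = x + 2 by ring, h2]; ring
    have e2 : W q (fin x B) ((x + 1) :: x :: (x + 1) :: B) x = (1 + q) ^ 2 * W q (fin x B) B x := by
      rw [W_other _ _ _ (by omega) (by omega), W_left, W_other _ _ _ (by omega) (by omega), W_left, h1]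
      rw [show x + 1 + 1 = x + 2 by ring, h2]; ring
    rw [e1, e2]
    have : (1 + 2 * q) * W q (fin x B) B x < (1 + q) ^ 2 * W q (fin x B) B x := by
      nlinarith [mul_pos (mul_pos hq hq) h0]
    exact ⟨this.le, fun _ => this⟩
  · refine ⟨?_, fun h => absurd h hxi⟩
    rw [W_other _ _ _ (by omega) (by omega), W_other _ _ _ (by omega) (by omega),
      W_other _ _ _ (by omega) (by omega), W_other _ _ _ (by omega) (by omega),
      W_other _ _ _ (by omega) (by omega), W_other _ _ _ (by omega) (by omega)]

lemma flip_lt {q : ℤ} (hq : 0 < q) {A B : List ℕ} {i z : ℕ} (hA : Dn z A) (hz : fin z A = i)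
    (hB : Up i B) : ∀ x ≤ z,
    W q (fin i B) (A ++ ([i, i + 1, i] ++ B)) x ≤ W q (fin i B) (A ++ ([i + 1, i, i + 1] ++ B)) x ∧
    (x = z → W q (fin i B) (A ++ ([i, i + 1, i] ++ B)) x
      < W q (fin i B) (A ++ ([i + 1, i, i + 1] ++ B)) x) := by
  induction A generalizing z with
  | nil =>
    intro x hx
    rw [fin_nil] at hz
    subst hz
    exact flip_base hq hB hx
  | cons k A ih =>
    rw [Dn_cons] at hA
    rw [fin_cons] at hz
    have IH := ih hA.2 hz
    intro x hx
    have hmz : z ≤ mv z k := by unfold mv; have := hA.1; split_ifs <;> omega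
    simp only [List.cons_append] at IH ⊢
    by_cases h1 : x = k
    · subst h1
      rw [W_left, W_left]
      rcases Nat.lt_or_ge x z with hlt | hge
      · have a1 := (IH x (by omega)).1
        have a2 := (IH (x + 1) (by omega)).1
        exact ⟨by linarith, fun h => by omega⟩
      · have hxz : x = z := by omega
        subst hxz
        have hm : mv x x = x + 1 := by simp [mv]
        rw [hm] at IH
        have a1 := (IH x (by omega)).1
        have a2 := (IH (x + 1) (by omega)).2 rfl
        exact ⟨by linarith, fun _ => by linarith⟩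
    · by_cases h2 : x = k + 1
      · subst h2
        rw [W_right, W_right]
        have a1 := (IH k (by omega)).1
        have a2 := (IH (k + 1) (by omega)).1
        refine ⟨?_, fun h => absurd h hA.1⟩
        exact mul_le_mul_of_nonneg_left (by linarith) hq.le
      · rw [W_other _ _ _ h1 h2, W_other _ _ _ h1 h2]
        have a1 := (IH x (by omega)).1
        refine ⟨mul_le_mul_of_nonneg_left a1 (by linarith), fun h => ?_⟩
        subst h
        have hm : mv x k = x := by unfold mv; split_ifs <;> omega
        rw [hm] at IH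
        have a2 := (IH x le_rfl).2 rfl
        exact mul_lt_mul_of_pos_left a2 (by linarith)

end Q120.BS
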