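import Pool.Agent.Q120.BS.Wire

namespace Q120.BS

open Finsupp

/-- weight of the letter `i` in the state `x` -/
def wt (q : ℤ) (i : ℕ) (x : St) : ℤ := if x i < x (i + 1) then 1 else q

/-- right multiplication by `1 + T_i` on the free module with basis the states -/
noncomputable def M (q : ℤ) (i : ℕ) : (St →₀ ℤ) →ₗ[ℤ] (St →₀ ℤ) :=
  Finsupp.linearCombination ℤ (fun x => wt q i x • (single x 1 + single (sw i x) 1))

/-- the product over a word -/
noncomputable def XL (q : ℤ) : List ℕ → (St →₀ ℤ) →ₗ[ℤ] (St →₀ ℤ)
  | [] => LinearMap.id
  | i :: R => XL q R ∘ₗ M q i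

noncomputable def X (q : ℤ) (R : List ℕ) (x : St) : St →₀ ℤ := XL q R (single x 1)

lemma M_single (q : ℤ) (i : ℕ) (x : St) :
    M q i (single x 1) = wt q i x • (single x 1 + single (sw i x) 1) := by
  simp [M]

lemma X_nil (q : ℤ) (x : St) : X q [] x = single x 1 := rfl

lemma X_cons (q : ℤ) (i : ℕ) (R : List ℕ) (x : St) :
    X q (i :: R) x = wt q i x • (X q R x + X q R (sw i x)) := by
  unfold X
  simp only [XL, LinearMap.comp_apply]
  rw [M_single, map_smul, map_add]

/-- keep the states with label `l` at the position `p`, and delete it -/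
noncomputable def Ps (p l : ℕ) : (St →₀ ℤ) →ₗ[ℤ] (St →₀ ℤ) :=
  Finsupp.linearCombination ℤ (fun y => if y p = l then single (del p y) (1 : ℤ) else 0)

lemma Ps_single (p l : ℕ) (y : St) :
    Ps p l (single y 1) = if y p = l then single (del p y) (1 : ℤ) else 0 := by
  simp [Ps]

lemma Z_up (q : ℤ) {R : List ℕ} {p k : ℕ} {x : St} (hx : Function.Injective x)
    (hU : Up p R) (hpk : p < k) : Ps (fin p R) (x k) (X q R x) = 0 := by
  induction R generalizing p k x with
  | nil =>
    rw [X_nil, fin_nil, Ps_single, if_neg]
    intro h; have := hx h; omega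
  | cons i R ih =>
    rw [Up_cons] at hU
    rw [X_cons, map_smul, map_add, fin_cons]
    have h1 := ih (p := mv p i) (k := k) hx hU.2 (by unfold mv; split_ifs <;> omega)
    have h2 := ih (p := mv p i) (k := mv k i) (x := sw i x) (sw_inj hx) hU.2
      (by unfold mv; split_ifs <;> omega)
    rw [sw_mv] at h2
    rw [h1, h2]; simp

lemma Z_dn (q : ℤ) {R : List ℕ} {p k : ℕ} {x : St} (hx : Function.Injective x)
    (hU : Dn p R) (hpk : k < p) : Ps (fin p R) (x k) (X q R x) = 0 := by
  induction R generalizing p k x with
  | nil =>
    rw [X_nil, fin_nil, Ps_single, if_neg]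
    intro h; have := hx h; omega
  | cons i R ih =>
    rw [Dn_cons] at hU
    rw [X_cons, map_smul, map_add, fin_cons]
    have h1 := ih (p := mv p i) (k := k) hx hU.2 (by unfold mv; split_ifs <;> omega)
    have h2 := ih (p := mv p i) (k := mv k i) (x := sw i x) (sw_inj hx) hU.2
      (by unfold mv; split_ifs <;> omega)
    rw [sw_mv] at h2
    rw [h1, h2]; simp

/-- deleting a wire which only moves up, below smaller labels only -/
lemma del_up (q : ℤ) {R : List ℕ} {p : ℕ} {x : St} (hx : Function.Injective x)
    (hU : Up p R) (hl : ∀ k < p, x k < x p) :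
    Ps (fin p R) (x p) (X q R x) = X q (wd p R) (del p x) := by
  induction R generalizing p x with
  | nil => rw [X_nil, fin_nil, Ps_single, if_pos rfl]; rfl
  | cons i R ih =>
    rw [Up_cons] at hU
    rcases lt_trichotomy (i + 1) p with h | h | h
    · have hm : mv p i = p := by unfold mv; split_ifs <;> omega
      rw [hm] at hU
      have hs : sw i x p = x p := sw_other x (by omega) (by omega)
      rw [wd_lt R h, X_cons, X_cons, map_smul, map_add, fin_cons, hm, ih hx hU.2 hl]
      have h2 := ih (p := p) (x := sw i x) (sw_inj hx) hU.2 (by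
        intro k hk
        rw [hs, sw_eq]
        apply hl
        unfold mv; split_ifs <;> omega)
      rw [hs] at h2
      rw [h2, del_sw_lt x h]
      congr 1
      unfold wt del
      rw [if_pos (show i < p by omega), if_pos (show i + 1 < p by omega)]
    · subst h
      have hm : mv (i + 1) i = i := by simp [mv]
      rw [hm] at hU
      have hw : wt q i x = 1 := if_pos (hl i (by omega))
      rw [wd_succ, X_cons, hw, one_smul, map_add, fin_cons, hm,
        Z_up q hx hU.2 (show i < i + 1 by omega), zero_add, ← del_sw_succ]
      have h2 := ih (p := i) (x := sw i x) (sw_inj hx) hU.2 (by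
        intro k hk
        rw [sw_left, sw_other x (by omega) (by omega)]
        exact hl k (by omega))
      rw [sw_left] at h2
      exact h2
    · have h' : p < i := by
        have := hU.1; omega
      have hm : mv p i = p := by unfold mv; split_ifs <;> omega
      rw [hm] at hU
      have hs : sw i x p = x p := sw_other x (by omega) (by omega)
      rw [wd_gt R h', X_cons, X_cons, map_smul, map_add, fin_cons, hm, ih hx hU.2 hl]
      have h2 := ih (p := p) (x := sw i x) (sw_inj hx) hU.2 (by
        intro k hk
        rw [hs, sw_eq]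
        apply hl
        unfold mv; split_ifs <;> omega)
      rw [hs] at h2
      rw [h2, del_sw_gt x h']
      congr 1
      have h1 : i - 1 + 1 = i := by omega
      have e1 : del p x (i - 1) = x i := by
        unfold del; rw [if_neg (by omega), h1]
      have e2 : del p x (i - 1 + 1) = x (i + 1) := by
        unfold del; rw [if_neg (by omega), h1]
      unfold wt
      rw [e1, e2]

/-- deleting a wire which only moves down, above larger labels only -/
lemma del_dn (q : ℤ) {R : List ℕ} {p : ℕ} {x : St} (hx : Function.Injective x)
    (hU : Dn p R) (hl : ∀ k, p < k → x p < x k) :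
    Ps (fin p R) (x p) (X q R x) = X q (wd p R) (del p x) := by
  induction R generalizing p x with
  | nil => rw [X_nil, fin_nil, Ps_single, if_pos rfl]; rfl
  | cons i R ih =>
    rw [Dn_cons] at hU
    rcases lt_trichotomy (i + 1) p with h | h | h
    · have hm : mv p i = p := by unfold mv; split_ifs <;> omega
      rw [hm] at hU
      have hs : sw i x p = x p := sw_other x (by omega) (by omega)
      rw [wd_lt R h, X_cons, X_cons, map_smul, map_add, fin_cons, hm, ih hx hU.2 hl]
      have h2 := ih (p := p) (x := sw i x) (sw_inj hx) hU.2 (by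
        intro k hk
        rw [hs, sw_eq]
        apply hl
        unfold mv; split_ifs <;> omega)
      rw [hs] at h2
      rw [h2, del_sw_lt x h]
      congr 1
      unfold wt del
      rw [if_pos (show i < p by omega), if_pos (show i + 1 < p by omega)]
    · exact absurd h hU.1
    · rcases Nat.lt_or_ge p i with h' | h'
      · have hm : mv p i = p := by unfold mv; split_ifs <;> omega
        rw [hm] at hU
        have hs : sw i x p = x p := sw_other x (by omega) (by omega)
        rw [wd_gt R h', X_cons, X_cons, map_smul, map_add, fin_cons, hm, ih hx hU.2 hl]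
        have h2 := ih (p := p) (x := sw i x) (sw_inj hx) hU.2 (by
          intro k hk
          rw [hs, sw_eq]
          apply hl
          unfold mv; split_ifs <;> omega)
        rw [hs] at h2
        rw [h2, del_sw_gt x h']
        congr 1
        have h1 : i - 1 + 1 = i := by omega
        have e1 : del p x (i - 1) = x i := by
          unfold del; rw [if_neg (by omega), h1]
        have e2 : del p x (i - 1 + 1) = x (i + 1) := by
          unfold del; rw [if_neg (by omega), h1]
        unfold wt
        rw [e1, e2]
      · have hpi : i = p := by omega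
        subst hpi
        have hm : mv i i = i + 1 := by simp [mv]
        rw [hm] at hU
        have hw : wt q i x = 1 := if_pos (hl (i + 1) (by omega))
        rw [wd_eq, X_cons, hw, one_smul, map_add, fin_cons, hm,
          Z_dn q hx hU.2 (show i < i + 1 by omega), zero_add, ← del_sw_eq]
        have h2 := ih (p := i + 1) (x := sw i x) (sw_inj hx) hU.2 (by
          intro k hk
          rw [sw_right, sw_other x (by omega) (by omega)]
          exact hl k (by omega))
        rw [sw_right] at h2
        exact h2

/-- the walk of one label: weighted number of ways from the position `x` to the final position `t` -/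
def W (q : ℤ) (t : ℕ) : List ℕ → ℕ → ℤ
  | [], x => if x = t then 1 else 0
  | i :: R, x => if x = i then W q t R i + W q t R (i + 1)
      else if x = i + 1 then q * (W q t R i + W q t R (i + 1))
      else (1 + q) * W q t R x

lemma W_left (q : ℤ) (t i : ℕ) (R : List ℕ) :
    W q t (i :: R) i = W q t R i + W q t R (i + 1) := by simp [W]

lemma W_right (q : ℤ) (t i : ℕ) (R : List ℕ) :
    W q t (i :: R) (i + 1) = q * (W q t R i + W q t R (i + 1)) := by simp [W]

lemma W_other (q : ℤ) (t : ℕ) {i x : ℕ} (R : List ℕ) (h1 : x ≠ i) (h2 : x ≠ i + 1) :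
    W q t (i :: R) x = (1 + q) * W q t R x := by simp [W, h1, h2]

lemma W_swap (q : ℤ) (t : ℕ) (A : List ℕ) {i j : ℕ} (B : List ℕ) (h : i + 1 < j ∨ j + 1 < i)
    (x : ℕ) : W q t (A ++ i :: j :: B) x = W q t (A ++ j :: i :: B) x := by
  induction A generalizing x with
  | nil =>
    simp only [List.nil_append, W]
    split_ifs <;> first | omega | ring | (subst_vars; ring) | skip
  | cons k A ih =>
    simp only [List.cons_append, W]
    rw [ih, ih, ih]

lemma W_CE {q : ℤ} {t : ℕ} {R S : List ℕ} (h : CE R S) (x : ℕ) : W q t R x = W q t S x := by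
  induction h with
  | refl => rfl
  | tail _ h2 ih =>
    rw [ih]
    obtain ⟨A, i, j, B, h⟩ := h2
    exact W_swap q t A B h x

lemma W_nonneg {q : ℤ} (hq : 0 ≤ q) (t : ℕ) (R : List ℕ) (x : ℕ) : 0 ≤ W q t R x := by
  induction R generalizing x with
  | nil => unfold W; split_ifs <;> norm_num
  | cons i R ih =>
    unfold W
    have := ih i
    have := ih (i + 1)
    have := ih x
    split_ifs <;> positivity

/-- inversions inside the window `N` -/
def invs (N : ℕ) (y : St) : Finset (ℕ × ℕ) :=
  ((Finset.range N) ×ˢ (Finset.range N)).filter (fun p => p.1 < p.2 ∧ y p.2 < y p.1)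

lemma mem_invs {N : ℕ} {y : St} {a b : ℕ} :
    (a, b) ∈ invs N y ↔ b < N ∧ a < b ∧ y b < y a := by
  unfold invs
  simp only [Finset.mem_filter, Finset.mem_product, Finset.mem_range]
  constructor
  · rintro ⟨⟨_, h1⟩, h2, h3⟩; exact ⟨h1, h2, h3⟩
  · rintro ⟨h1, h2, h3⟩; exact ⟨⟨by omega, h1⟩, h2, h3⟩

lemma invs_sw {N i : ℕ} {y : St} (hi : i + 1 < N) (h : y i < y (i + 1)) :
    (invs N (sw i y)).card = (invs N y).card + 1 := by
  have hE : invs N (sw i y) = insert (i, i + 1)
      ((invs N y).image (fun p => (mv p.1 i, mv p.2 i))) := by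
    ext ⟨a, b⟩
    rw [Finset.mem_insert, Finset.mem_image, mem_invs]
    constructor
    · rintro ⟨h1, h2, h3⟩
      by_cases hc : a = i ∧ b = i + 1
      · left; rw [hc.1, hc.2]
      · right
        refine ⟨(mv a i, mv b i), ?_, by simp [mv_mv]⟩
        rw [mem_invs]
        rw [sw_eq, sw_eq] at h3
        refine ⟨?_, ?_, h3⟩
        · unfold mv; split_ifs <;> omega
        · unfold mv; split_ifs <;> omega
    · rintro (hc | ⟨⟨c, d⟩, hcd, he⟩)
      · have h1 : a = i := by simpa using congrArg Prod.fst hc
        have h2 : b = i + 1 := by simpa using congrArg Prod.snd hc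
        subst h1; subst h2
        exact ⟨hi, by omega, by rw [sw_left, sw_right]; exact h⟩
      · rw [mem_invs] at hcd
        have h1 : mv c i = a := by simpa using congrArg Prod.fst he
        have h2 : mv d i = b := by simpa using congrArg Prod.snd he
        subst h1; subst h2
        rw [sw_mv, sw_mv]
        have hne : ¬ (c = i ∧ d = i + 1) := by
          rintro ⟨rfl, rfl⟩; omega
        refine ⟨?_, ?_, hcd.2.2⟩
        · unfold mv; split_ifs <;> omega
        · unfold mv; split_ifs <;> omega
  rw [hE, Finset.card_insert_of_notMem, Finset.card_image_of_injective]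
  · rintro ⟨a, b⟩ ⟨c, d⟩ hh
    have h1 := congrArg Prod.fst hh
    have h2 := congrArg Prod.snd hh
    exact Prod.ext (mv_inj h1) (mv_inj h2)
  · rw [Finset.mem_image]
    rintro ⟨⟨c, d⟩, hcd, he⟩
    rw [mem_invs] at hcd
    have h1 : mv c i = i := by simpa using congrArg Prod.fst he
    have h2 : mv d i = i + 1 := by simpa using congrArg Prod.snd he
    have : c < d := hcd.2.1
    unfold mv at h1 h2
    split_ifs at h1 h2 <;> omega

/-- the functional: label `z` at the final position `t`, weight `q ^ inversions` -/
noncomputable def Ph (q : ℤ) (N t z : ℕ) : (St →₀ ℤ) →ₗ[ℤ] ℤ :=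
  Finsupp.linearCombination ℤ (fun y => if y t = z then q ^ (invs N y).card else 0)

lemma Ph_single (q : ℤ) (N t z : ℕ) (y : St) :
    Ph q N t z (single y 1) = if y t = z then q ^ (invs N y).card else 0 := by
  simp [Ph]

lemma Ph_X {q : ℤ} (hq : q ≠ 0) {N t : ℕ} {R : List ℕ} (hR : ∀ i ∈ R, i + 1 < N) {x : St}
    (hx : Function.Injective x) {k : ℕ} (hmin : ∀ u, u ≠ k → x k < x u) :
    Ph q N t (x k) (X q R x) * q ^ k = q ^ ((invs N x).card + t) * W q t R k := by
  induction R generalizing x k with
  | nil =>
    rw [X_nil, Ph_single]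
    unfold W
    by_cases h : k = t
    · subst h; simp [pow_add]
    · have : x t ≠ x k := fun hh => h (hx hh).symm
      simp [h, this]
  | cons i R ih =>
    have hi : i + 1 < N := hR i (by simp)
    have hR' : ∀ j ∈ R, j + 1 < N := fun j hj => hR j (by simp [hj])
    have h1 := ih hR' hx hmin
    have h2 := ih (k := mv k i) hR' (x := sw i x) (sw_inj hx) (by
      intro u hu
      rw [sw_mv, sw_eq]
      apply hmin
      intro h
      apply hu
      rw [← mv_mv u i, h])
    rw [sw_mv] at h2
    rw [X_cons, map_smul, map_add]
    rcases lt_trichotomy (x i) (x (i + 1)) with hlt | heq | hgt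
    · have hw : wt q i x = 1 := if_pos hlt
      rw [hw, one_smul]
      have hinv := invs_sw hi hlt
      rw [hinv] at h2
      have hk1 : k ≠ i + 1 := by
        rintro rfl
        have := hmin i (by omega); omega
      by_cases hki : k = i
      · subst hki
        have hm : mv k k = k + 1 := by simp [mv]
        rw [hm] at h2
        rw [W_left]
        have h3 : Ph q N t (x k) (X q R (sw k x)) * q ^ k
            = q ^ ((invs N x).card + t) * W q t R (k + 1) := by
          apply mul_right_cancel₀ hq
          calc _ = Ph q N t (x k) (X q R (sw k x)) * q ^ (k + 1) := by ring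
            _ = _ := by rw [h2]; ring
        rw [add_mul, h1, h3]; ring
      · have hm : mv k i = k := by unfold mv; split_ifs <;> omega
        rw [hm] at h2
        rw [W_other q t R hki hk1, add_mul, h1, h2]; ring
    · have := hx heq; omega
    · have hw : wt q i x = q := if_neg (by omega)
      rw [hw, smul_eq_mul]
      have hinv := invs_sw (y := sw i x) hi (by rw [sw_left, sw_right]; exact hgt)
      rw [sw_sw] at hinv
      rw [hinv] at h1 ⊢
      have hk1 : k ≠ i := by
        rintro rfl
        have := hmin (k + 1) (by omega); omega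
      by_cases hki : k = i + 1
      · subst hki
        have hm : mv (i + 1) i = i := by simp [mv]
        rw [hm] at h2
        rw [W_right]
        have h3 : Ph q N t (x (i + 1)) (X q R (sw i x)) * q ^ (i + 1)
            = q ^ ((invs N (sw i x)).card + 1 + t) * W q t R i := by
          calc _ = (Ph q N t (x (i + 1)) (X q R (sw i x)) * q ^ i) * q := by ring
            _ = _ := by rw [h2]; ring
        rw [mul_assoc, add_mul, h1, h3]; ring
      · have hm : mv k i = k := by unfold mv; split_ifs <;> omega
        rw [hm] at h2
        rw [W_other q t R hk1 hki, mul_assoc, add_mul, h1, h2]; ring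

end Q120.BS
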