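import Mathlib

namespace Q120.BS

lemma filter_ne_self {l : List ℕ} {z : ℕ} (h : z ∉ l) : l.filter (fun b => b ≠ z) = l := by
  rw [List.filter_eq_self]
  intro b hb
  have : b ≠ z := fun hh => h (hh ▸ hb)
  simp [this]

lemma filter_mid {l1 l2 : List ℕ} {z : ℕ} (h1 : z ∉ l1) (h2 : z ∉ l2) :
    (l1 ++ z :: l2).filter (fun b => b ≠ z) = l1 ++ l2 := by
  rw [List.filter_append, filter_ne_self h1, List.filter_cons]
  simp only [ne_eq, not_true_eq_false, decide_false, Bool.false_eq_true, if_false]
  rw [filter_ne_self h2]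

/-- two lists agreeing after the removal of `z` and after the removal of `M` -/
lemma adj_swap {z M : ℕ} (hzM : z ≠ M) {l1 l2 : List ℕ} (n1 : l1.Nodup) (n2 : l2.Nodup)
    (h1 : l1.filter (fun b => b ≠ z) = l2.filter (fun b => b ≠ z))
    (h2 : l1.filter (fun b => b ≠ M) = l2.filter (fun b => b ≠ M)) :
    l1 = l2 ∨ (∃ u v, l1 = u ++ z :: M :: v ∧ l2 = u ++ M :: z :: v) ∨
      (∃ u v, l1 = u ++ M :: z :: v ∧ l2 = u ++ z :: M :: v) := by
  induction l1 generalizing l2 with
  | nil =>
    cases l2 with
    | nil => left; rfl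
    | cons c l2 =>
      by_cases hc : c = z
      · subst hc
        rw [List.filter_cons] at h2
        simp [hzM] at h2
      · rw [List.filter_cons] at h1
        simp [hc] at h1
  | cons c1 t1 ih =>
    cases l2 with
    | nil =>
      by_cases hc : c1 = z
      · subst hc
        rw [List.filter_cons] at h2
        simp [hzM] at h2
      · rw [List.filter_cons] at h1
        simp [hc] at h1
    | cons c2 t2 =>
      by_cases hc : c1 = c2
      · subst hc
        have g1 : t1.filter (fun b => b ≠ z) = t2.filter (fun b => b ≠ z) := by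
          rw [List.filter_cons, List.filter_cons] at h1
          split_ifs at h1
          · exact (List.cons.inj h1).2
          · exact h1
        have g2 : t1.filter (fun b => b ≠ M) = t2.filter (fun b => b ≠ M) := by
          rw [List.filter_cons, List.filter_cons] at h2
          split_ifs at h2
          · exact (List.cons.inj h2).2
          · exact h2
        rcases ih (List.nodup_cons.1 n1).2 (List.nodup_cons.1 n2).2 g1 g2 with h | ⟨u, v, h, h'⟩ |
          ⟨u, v, h, h'⟩
        · left; rw [h]
        · right; left; exact ⟨c1 :: u, v, by rw [h]; rfl, by rw [h']; rfl⟩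
        · right; right; exact ⟨c1 :: u, v, by rw [h]; rfl, by rw [h']; rfl⟩
      · -- heads differ
        have key : ∀ (z M c1 c2 : ℕ) (t1 t2 : List ℕ), z ≠ M → c1 = z → c2 = M →
            (c1 :: t1).Nodup → (c2 :: t2).Nodup →
            (c1 :: t1).filter (fun b => b ≠ z) = (c2 :: t2).filter (fun b => b ≠ z) →
            (c1 :: t1).filter (fun b => b ≠ M) = (c2 :: t2).filter (fun b => b ≠ M) →
            ∃ v, c1 :: t1 = z :: M :: v ∧ c2 :: t2 = M :: z :: v := by
          intro z M c1 c2 t1 t2 hzM e1 e2 n1 n2 h1 h2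
          subst e1; subst e2
          have m1 := (List.nodup_cons.1 n1).1
          have m2 := (List.nodup_cons.1 n2).1
          have g1 := filter_mid (l1 := []) (l2 := t1) (z := c1) (by simp) m1
          have g2 := filter_mid (l1 := []) (l2 := t2) (z := c2) (by simp) m2
          rw [List.nil_append, List.nil_append] at g1 g2
          rw [g1] at h1
          rw [g2] at h2
          rw [List.filter_cons] at h1 h2
          simp only [ne_eq, hzM.symm, not_false_eq_true, decide_true, if_true] at h1
          simp only [ne_eq, hzM, not_false_eq_true, decide_true, if_true] at h2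
          obtain ⟨w, hw⟩ : ∃ w, w = t2.filter (fun b => ¬ b = c1) := ⟨_, rfl⟩
          rw [← hw] at h1
          subst h1
          have m3 := (List.nodup_cons.1 (List.nodup_cons.1 n1).2).1
          have g3 := filter_mid (l1 := []) (l2 := w) (z := c2) (by simp) m3
          simp only [List.nil_append, ne_eq] at g3
          rw [g3] at h2
          exact ⟨w, rfl, by rw [← h2]⟩
        right
        by_cases e1 : c1 = z
        · have e2 : c2 = M := by
            by_contra e2
            rw [List.filter_cons, List.filter_cons] at h2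
            have : c1 ≠ M := by rw [e1]; exact hzM
            simp [this, e2, hc] at h2
          left
          obtain ⟨v, hv1, hv2⟩ := key z M c1 c2 t1 t2 hzM e1 e2 n1 n2 h1 h2
          exact ⟨[], v, hv1, hv2⟩
        · have e2 : c2 = z := by
            by_contra e2
            rw [List.filter_cons, List.filter_cons] at h1
            simp [e1, e2, hc] at h1
          have e3 : c1 = M := by
            by_contra e3
            rw [List.filter_cons, List.filter_cons] at h2
            have : c2 ≠ M := by rw [e2]; exact hzM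
            simp [this, e3, hc] at h2
          right
          obtain ⟨v, hv1, hv2⟩ := key z M c2 c1 t2 t1 hzM e2 e3 n2 n1 h1.symm h2.symm
          exact ⟨[], v, hv2, hv1⟩

lemma split_mid {z M : ℕ} {l1 l2 u v : List ℕ} (n : (l1 ++ l2).Nodup)
    (h : l1 ++ l2 = u ++ M :: z :: v) (hM : M ∈ l1) (hz : z ∈ l2) :
    l1 = u ++ [M] ∧ l2 = z :: v := by
  have hd := List.disjoint_of_nodup_append n
  have h' : l1 ++ l2 = (u ++ [M]) ++ (z :: v) := by rw [h]; simp
  rcases List.append_eq_append_iff.1 h' with ⟨c, h1, h2⟩ | ⟨c, h1, h2⟩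
  · rcases List.eq_nil_or_concat c with rfl | ⟨c', b, rfl⟩
    · simp at h1 h2; exact ⟨h1.symm, h2⟩
    · exfalso
      rw [List.concat_eq_append, ← List.append_assoc] at h1
      have := (List.append_inj' h1 rfl).2
      simp at this
      subst this
      exact hd hM (by rw [h2]; simp)
  · cases c with
    | nil => simp at h1 h2; exact ⟨h1, h2.symm⟩
    | cons b c' =>
      exfalso
      simp at h2
      obtain ⟨rfl, _⟩ := h2
      exact hd (by rw [h1]; simp) hz

lemma no_split {z M : ℕ} {l1 l2 u v : List ℕ} (n : (l1 ++ l2).Nodup)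
    (h : l1 ++ l2 = u ++ z :: M :: v) (hM : M ∈ l1) (hz : z ∉ l1) : False := by
  rw [h] at n
  rcases List.append_eq_append_iff.1 h with ⟨c, h1, h2⟩ | ⟨c, h1, h2⟩
  · have hMu : M ∈ u := by rw [h1]; simp [hM]
    have := List.disjoint_of_nodup_append n
    exact this hMu (by simp)
  · cases c with
    | nil =>
      simp at h1
      subst h1
      have := List.disjoint_of_nodup_append n
      exact this hM (by simp)
    | cons b c' =>
      simp at h2
      obtain ⟨rfl, _⟩ := h2
      exact hz (by rw [h1]; simp)

lemma no_split2 {z M : ℕ} {l1 l2 m1 m2 : List ℕ} (n : (l1 ++ l2).Nodup)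
    (h : l1 ++ l2 = m1 ++ m2) (hM : M ∈ l1) (hz : z ∈ l2) (hz' : z ∈ m1) (hM' : M ∈ m2) :
    False := by
  have d1 := List.disjoint_of_nodup_append n
  rw [h] at n
  have d2 := List.disjoint_of_nodup_append n
  rcases List.append_eq_append_iff.1 h with ⟨c, h1, h2⟩ | ⟨c, h1, h2⟩
  · exact d2 (by rw [h1]; simp [hM]) hM'
  · exact d1 (by rw [h1]; simp [hz']) hz

lemma split_pred {P : ℕ → Prop} {l1 l2 m1 m2 : List ℕ} (h : l1 ++ l2 = m1 ++ m2)
    (h1 : ∀ a ∈ l1, ¬ P a) (h2 : ∀ a ∈ l2, P a) (h3 : ∀ a ∈ m1, ¬ P a) (h4 : ∀ a ∈ m2, P a) :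
    l1 = m1 ∧ l2 = m2 := by
  rcases List.append_eq_append_iff.1 h with ⟨c, e1, e2⟩ | ⟨c, e1, e2⟩
  · cases c with
    | nil => simp at e1 e2; exact ⟨e1.symm, e2⟩
    | cons b c =>
      exact absurd (h2 b (by rw [e2]; simp)) (h3 b (by rw [e1]; simp))
  · cases c with
    | nil => simp at e1 e2; exact ⟨e1, e2.symm⟩
    | cons b c =>
      exact absurd (h4 b (by rw [e2]; simp)) (h1 b (by rw [e1]; simp))

end Q120.BS
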