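import Pool.Agent.Q120.BS.Flip
import Pool.Agent.Q120.BS.Lists

namespace Q120.BS

lemma Dn_min {p : ℕ} {x : St} (hx : Function.Injective x) (hmin : ∀ u, u ≠ p → x p < x u)
    {R : List ℕ} (h : Red x R) : Dn p R := by
  induction R generalizing p x with
  | nil => trivial
  | cons i R ih =>
    rw [Red_cons] at h
    rw [Dn_cons]
    refine ⟨?_, ih (x := sw i x) (sw_inj hx) ?_ h.2⟩
    · rintro rfl
      have := hmin i (by omega)
      omega
    · intro u hu
      rw [sw_mv, sw_eq]
      apply hmin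
      intro h'
      apply hu
      rw [← mv_mv u i, h']

lemma Up_max {p N : ℕ} {x : St} (hx : Function.Injective x) (hp : p < N)
    (hmax : ∀ u, u < N → u ≠ p → x u < x p) {R : List ℕ} (hR : ∀ i ∈ R, i + 1 < N)
    (h : Red x R) : Up p R := by
  induction R generalizing p x with
  | nil => trivial
  | cons i R ih =>
    rw [Red_cons] at h
    rw [Up_cons]
    have hi := hR i (by simp)
    refine ⟨?_, ih (x := sw i x) (sw_inj hx) ?_ ?_ (fun k hk => hR k (by simp [hk])) h.2⟩
    · rintro rfl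
      have := hmax (i + 1) (by omega) (by omega)
      omega
    · unfold mv; split_ifs <;> omega
    · intro u hu hne
      rw [sw_mv, sw_eq]
      apply hmax
      · unfold mv; split_ifs <;> omega
      · intro h'
        apply hne
        rw [← mv_mv u i, h']

lemma Dn_split {p : ℕ} {B : List ℕ} (h : Dn p B) :
    ∀ A C k, B = A ++ k :: C → k + 1 ≠ fin p A := by
  intro A C k hB
  rw [hB, Dn_append, Dn_cons] at h
  exact h.2.1

lemma loc_nil_ge {x : St} (hx : Function.Injective x) {N u : ℕ} (hu : N ≤ u) {R : List ℕ}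
    (hR : ∀ i ∈ R, i + 1 < N) : loc (x u) x R = [] := by
  induction R generalizing x with
  | nil => rfl
  | cons i R ih =>
    have hi := hR i (by simp)
    have h1 : sw i x u = x u := sw_other x (by omega) (by omega)
    have := ih (x := sw i x) (sw_inj hx) (fun k hk => hR k (by simp [hk]))
    rw [h1] at this
    rw [loc_cons, this, part_eq_nil (fun h => by have := hx h; omega)
      (fun h => by have := hx h; omega)]
    rfl

lemma braid (i : ℕ) (y : St) :
    sw (i + 1) (sw i (sw (i + 1) y)) = sw i (sw (i + 1) (sw i y)) := by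
  funext k
  simp only [sw]
  split_ifs <;> first | omega | rfl | (congr 1; omega)

/-- the crossing of the extreme wires: `R = A ++ i :: B` -/
structure Dec (x0 : St) (N : ℕ) (R : List ℕ) (A : List ℕ) (i : ℕ) (B : List ℕ) : Prop where
  eq : R = A ++ i :: B
  h0 : run x0 A i = x0 0
  h1 : run x0 A (i + 1) = x0 (N - 1)

section ctx

variable {x0 : St} (hx : StrictMono x0) {N : ℕ} (hN : 2 ≤ N)

include hx hN

lemma zM : x0 0 ≠ x0 (N - 1) := fun h => by have := hx.injective h; omega

variable {R A B : List ℕ} {i : ℕ} (hb : ∀ k ∈ R, k + 1 < N) (hr : Red x0 R)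
  (hd : Dec x0 N R A i B)

include hb hr hd

lemma D_redA : Red x0 A := by
  rw [hd.eq, Red_append] at hr; exact hr.1

omit hr hx hN in
lemma D_bA : ∀ k ∈ A, k + 1 < N := fun k hk => hb k (by rw [hd.eq]; simp [hk])

omit hr hb hN in
lemma D_fin0 : fin 0 A = i := by
  apply run_inj A hx.injective
  rw [run_fin, hd.h0]

omit hr hb hN in
lemma D_finm : fin (N - 1) A = i + 1 := by
  apply run_inj A hx.injective
  rw [run_fin, hd.h1]

lemma D_locz : loc (x0 0) x0 R = loc (x0 0) x0 A ++
    x0 (N - 1) :: loc (x0 0) (sw i (run x0 A)) B := by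
  have h := part_left (run x0 A) i
  rw [hd.h0, hd.h1] at h
  conv_lhs => rw [hd.eq]
  rw [loc_append, loc_cons, h]
  rfl

lemma D_locM : loc (x0 (N - 1)) x0 R = loc (x0 (N - 1)) x0 A ++
    x0 0 :: loc (x0 (N - 1)) (sw i (run x0 A)) B := by
  have h := part_right (run_inj A hx.injective) i
  rw [hd.h0, hd.h1] at h
  conv_lhs => rw [hd.eq]
  rw [loc_append, loc_cons, h]
  rfl

lemma D_loco {u : ℕ} (hu0 : u ≠ 0) (hum : u ≠ N - 1) :
    loc (x0 u) x0 R = loc (x0 u) x0 A ++ loc (x0 u) (sw i (run x0 A)) B := by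
  conv_lhs => rw [hd.eq]
  rw [loc_append, loc_cons, part_eq_nil, List.nil_append]
  · rw [hd.h0]; intro h; exact hu0 (hx.injective h).symm
  · rw [hd.h1]; intro h; exact hum (hx.injective h).symm

lemma D_iff {u : ℕ} (hu0 : 0 < u) (hum : u < N - 1) :
    (x0 u ∈ loc (x0 0) x0 A ↔ x0 (N - 1) ∉ loc (x0 u) x0 A) := by
  have hA := D_redA hx hN hb hr hd
  have f0 := D_fin0 hx hd
  have fm := D_finm hx hd
  have h1 := cross_iff hx.injective hA (u := 0) (v := u) hu0 (hx hu0)
  have h2 := cross_iff hx.injective hA (u := u) (v := N - 1) hum (hx hum)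
  rw [h1, h2, f0, fm]
  have h3 : fin u A ≠ i := by
    intro h; rw [← f0] at h; have := fin_inj A h; omega
  have h4 : fin u A ≠ i + 1 := by
    intro h; rw [← fm] at h; have := fin_inj A h; omega
  omega

end ctx

/-- the situation to be analysed -/
structure Ctx (x0 : St) (N : ℕ) (R1 R2 : List ℕ) : Prop where
  b1 : ∀ k ∈ R1, k + 1 < N
  b2 : ∀ k ∈ R2, k + 1 < N
  r1 : Red x0 R1
  r2 : Red x0 R2
  hrun : run x0 R1 = run x0 R2
  F1 : ∀ a, a ≠ x0 0 → (loc a x0 R1).filter (fun b => b ≠ x0 0)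
    = (loc a x0 R2).filter (fun b => b ≠ x0 0)
  F2 : ∀ a, a ≠ x0 (N - 1) → (loc a x0 R1).filter (fun b => b ≠ x0 (N - 1))
    = (loc a x0 R2).filter (fun b => b ≠ x0 (N - 1))

section main

variable {x0 : St} (hx : StrictMono x0) {N : ℕ} (hN : 2 ≤ N) {R1 R2 : List ℕ}
  (c : Ctx x0 N R1 R2) {A1 B1 A2 B2 : List ℕ} {i1 i2 : ℕ} (d1 : Dec x0 N R1 A1 i1 B1)
  (d2 : Dec x0 N R2 A2 i2 B2)

include hx hN c d1 d2

lemma locz_filter : loc (x0 0) x0 A1 ++ loc (x0 0) (sw i1 (run x0 A1)) B1
    = loc (x0 0) x0 A2 ++ loc (x0 0) (sw i2 (run x0 A2)) B2 := by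
  have h := c.F2 (x0 0) (zM hx hN)
  have n1 := loc_nodup hx.injective c.r1 (x0 0)
  have n2 := loc_nodup hx.injective c.r2 (x0 0)
  rw [D_locz hx hN c.b1 c.r1 d1] at h n1
  rw [D_locz hx hN c.b2 c.r2 d2] at h n2
  have e1 := List.nodup_middle.1 n1
  have e2 := List.nodup_middle.1 n2
  have m1 := (List.nodup_cons.1 e1).1
  have m2 := (List.nodup_cons.1 e2).1
  rw [List.mem_append, not_or] at m1 m2
  rwa [filter_mid m1.1 m1.2, filter_mid m2.1 m2.2] at h

omit d2 in
lemma mem_range_lt {a : ℕ} (h : a ∈ loc (x0 0) x0 R1) : ∃ u, x0 u = a ∧ 0 < u ∧ u < N := by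
  obtain ⟨u, hu⟩ := loc_range h
  refine ⟨u, hu, ?_, ?_⟩
  · rcases Nat.eq_zero_or_pos u with h0 | h0
    · subst h0; subst hu; exact absurd h (loc_self hx.injective _ _)
    · exact h0
  · by_contra hge
    push Not at hge
    rw [← hu, loc_mem_symm hx.injective, loc_nil_ge hx.injective hge c.b1] at h
    simp at h

omit d2 in
lemma locM_before {a : ℕ} (h : a ∈ loc (x0 (N - 1)) x0 A1) : a ∉ loc (x0 0) x0 A1 := by
  obtain ⟨u, hu⟩ := loc_range h
  have hum : u ≠ N - 1 := by
    rintro rfl; subst hu; exact loc_self hx.injective _ _ h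
  have huN : u < N := by
    by_contra hge
    push Not at hge
    rw [← hu, loc_mem_symm hx.injective,
      loc_nil_ge hx.injective hge (D_bA c.b1 d1)] at h
    simp at h
  rcases Nat.eq_zero_or_pos u with h0 | h0
  · subst h0; subst hu; exact loc_self hx.injective _ _
  · subst hu
    rw [D_iff hx hN c.b1 c.r1 d1 h0 (by omega), not_not]
    exact (loc_mem_symm hx.injective _).1 h

omit d2 in
lemma locM_after {a : ℕ} (h : a ∈ loc (x0 (N - 1)) (sw i1 (run x0 A1)) B1) :
    a ∈ loc (x0 0) x0 A1 := by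
  have hR : a ∈ loc (x0 (N - 1)) x0 R1 := by
    rw [D_locM hx hN c.b1 c.r1 d1]; simp [h]
  have n1 := loc_nodup hx.injective c.r1 (x0 (N - 1))
  rw [D_locM hx hN c.b1 c.r1 d1] at n1
  have haz : a ≠ x0 0 := by
    rintro rfl
    have := (List.nodup_cons.1 (List.nodup_append.1 n1).2.1).1
    exact this h
  have hnA : a ∉ loc (x0 (N - 1)) x0 A1 := by
    intro h'
    exact List.disjoint_of_nodup_append n1 h' (by simp [h])
  obtain ⟨u, hu⟩ := loc_range hR
  have hum : u ≠ N - 1 := by
    rintro rfl; subst hu; exact loc_self hx.injective _ _ hR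
  have huN : u < N := by
    by_contra hge
    push Not at hge
    rw [← hu, loc_mem_symm hx.injective, loc_nil_ge hx.injective hge c.b1] at hR
    simp at hR
  have h0 : 0 < u := by
    rcases Nat.eq_zero_or_pos u with h0 | h0
    · subst h0; exact absurd hu.symm haz
    · exact h0
  subst hu
  rw [D_iff hx hN c.b1 c.r1 d1 h0 (by omega)]
  intro h'
  exact hnA ((loc_mem_symm hx.injective _).1 h')

end main

section sym

variable {x0 : St} {N : ℕ} {R1 R2 : List ℕ}

lemma Ctx.symm (c : Ctx x0 N R1 R2) : Ctx x0 N R2 R1 :=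
  ⟨c.b2, c.b1, c.r2, c.r1, c.hrun.symm, fun a ha => (c.F1 a ha).symm,
    fun a ha => (c.F2 a ha).symm⟩

end sym

/-- equal crossing level of the extreme wires: same commutation class -/
lemma ce_of_eq {x0 : St} (hx : StrictMono x0) {N : ℕ} (hN : 2 ≤ N) {R1 R2 : List ℕ}
    (c : Ctx x0 N R1 R2) {A1 B1 A2 B2 : List ℕ} {i1 i2 : ℕ} (d1 : Dec x0 N R1 A1 i1 B1)
    (d2 : Dec x0 N R2 A2 i2 B2)
    (hP : (loc (x0 0) x0 A1).length = (loc (x0 0) x0 A2).length) : CE R1 R2 := by
  have hfil := locz_filter hx hN c d1 d2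
  obtain ⟨hP', hS'⟩ := List.append_inj hfil hP
  apply CE_of_loc hx.injective
  intro u
  rcases Nat.eq_zero_or_pos u with h0 | h0
  · subst h0
    rw [D_locz hx hN c.b1 c.r1 d1, D_locz hx hN c.b2 c.r2 d2, hP', hS']
  rcases Nat.lt_or_ge u N with huN | huN
  · by_cases hum : u = N - 1
    · subst hum
      have n1 := loc_nodup hx.injective c.r1 (x0 (N - 1))
      have n2 := loc_nodup hx.injective c.r2 (x0 (N - 1))
      have h := c.F1 (x0 (N - 1)) (zM hx hN).symm
      rw [D_locM hx hN c.b1 c.r1 d1] at h n1 ⊢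
      rw [D_locM hx hN c.b2 c.r2 d2] at h n2 ⊢
      have m1 := (List.nodup_cons.1 (List.nodup_middle.1 n1)).1
      have m2 := (List.nodup_cons.1 (List.nodup_middle.1 n2)).1
      rw [List.mem_append, not_or] at m1 m2
      rw [filter_mid m1.1 m1.2, filter_mid m2.1 m2.2] at h
      obtain ⟨e1, e2⟩ := split_pred (P := fun a => a ∈ loc (x0 0) x0 A1) h
        (fun a ha => locM_before hx hN c d1 ha) (fun a ha => locM_after hx hN c d1 ha)
        (fun a ha => by rw [hP']; exact locM_before hx hN c.symm d2 ha)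
        (fun a ha => by rw [hP']; exact locM_after hx hN c.symm d2 ha)
      rw [e1, e2]
    · have hum' : u < N - 1 := by omega
      have n1 := loc_nodup hx.injective c.r1 (x0 u)
      have n2 := loc_nodup hx.injective c.r2 (x0 u)
      have I1 := D_iff hx hN c.b1 c.r1 d1 h0 hum'
      have I2 := D_iff hx hN c.b2 c.r2 d2 h0 hum'
      have hz1 : x0 0 ∈ loc (x0 u) x0 A1 ↔ x0 u ∈ loc (x0 0) x0 A1 := loc_mem_symm hx.injective _
      have hz2 : x0 0 ∈ loc (x0 u) x0 A2 ↔ x0 u ∈ loc (x0 0) x0 A2 := loc_mem_symm hx.injective _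
      have hPP : x0 u ∈ loc (x0 0) x0 A1 ↔ x0 u ∈ loc (x0 0) x0 A2 := by rw [hP']
      rcases adj_swap (zM hx hN) n1 n2 (c.F1 (x0 u) (fun h => by have := hx.injective h; omega))
        (c.F2 (x0 u) (fun h => by have := hx.injective h; omega)) with h | ⟨p, r, e1, e2⟩ |
        ⟨p, r, e1, e2⟩
      · exact h
      · exfalso
        rw [D_loco hx hN c.b1 c.r1 d1 (by omega) hum] at e1 n1
        rw [D_loco hx hN c.b2 c.r2 d2 (by omega) hum] at e2 n2
        by_cases hin : x0 u ∈ loc (x0 0) x0 A1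
        · -- z before M in R1, contradiction in R2
          have g1 := hz2.2 (hPP.1 hin)
          have g2 := I2.1 (hPP.1 hin)
          exact no_split n2 e2 g1 g2
        · have g1 : x0 (N - 1) ∈ loc (x0 u) x0 A1 := by
            by_contra hh; exact hin (I1.2 hh)
          exact no_split n1 e1 g1 (fun hh => hin (hz1.1 hh))
      · exfalso
        rw [D_loco hx hN c.b1 c.r1 d1 (by omega) hum] at e1 n1
        rw [D_loco hx hN c.b2 c.r2 d2 (by omega) hum] at e2 n2
        by_cases hin : x0 u ∈ loc (x0 0) x0 A1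
        · exact no_split n1 e1 (hz1.2 hin) (I1.1 hin)
        · have g1 : x0 (N - 1) ∈ loc (x0 u) x0 A2 := by
            by_contra hh; exact hin (hPP.2 (I2.2 hh))
          exact no_split n2 e2 g1 (fun hh => hin (hPP.2 (hz2.1 hh)))
  · rw [loc_nil_ge hx.injective huN c.b1, loc_nil_ge hx.injective huN c.b2]

end Q120.BS
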