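import Pool.Agent.Q120.BS.Step

namespace Q120.BS

open Equiv

/-- the simple transposition exchanging `i` and `i+1` -/
def simp' {n : ℕ} (i : Fin n) : Perm (Fin (n + 1)) := Equiv.swap i.castSucc i.succ

/-- the permutation spelled by a word -/
def wprod {n : ℕ} (R : List (Fin n)) : Perm (Fin (n + 1)) := (R.map simp').prod

lemma wprod_nil {n : ℕ} : wprod ([] : List (Fin n)) = 1 := rfl

lemma wprod_cons {n : ℕ} (i : Fin n) (R : List (Fin n)) :
    wprod (i :: R) = simp' i * wprod R := by simp [wprod]

lemma wprod_append {n : ℕ} (A B : List (Fin n)) : wprod (A ++ B) = wprod A * wprod B := by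
  simp [wprod]

lemma wprod_concat {n : ℕ} (A : List (Fin n)) (i : Fin n) :
    wprod (A ++ [i]) = wprod A * simp' i := by simp [wprod]

lemma simp'_sq {n : ℕ} (i : Fin n) : simp' i * simp' i = 1 := by
  simp [simp']

/-- the length: the least number of simple transpositions with product `w` -/
noncomputable def len {n : ℕ} (w : Perm (Fin (n + 1))) : ℕ :=
  sInf {k | ∃ R : List (Fin n), R.length = k ∧ wprod R = w}

lemma len_le {n : ℕ} (R : List (Fin n)) : len (wprod R) ≤ R.length :=
  Nat.sInf_le ⟨R, rfl, rfl⟩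

lemma exists_word {n : ℕ} (w : Perm (Fin (n + 1))) : ∃ R : List (Fin n), wprod R = w := by
  have h : w ∈ Submonoid.closure (Set.range fun i : Fin n ↦ Equiv.swap i.castSucc i.succ) := by
    rw [Equiv.Perm.mclosure_swap_castSucc_succ]; trivial
  obtain ⟨l, hl, rfl⟩ := Submonoid.exists_list_of_mem_closure h
  clear h
  induction l with
  | nil => exact ⟨[], rfl⟩
  | cons a l ih =>
    obtain ⟨R, hR⟩ := ih (fun y hy => hl y (by simp [hy]))
    obtain ⟨i, hi⟩ := hl a (by simp)
    exact ⟨i :: R, by rw [wprod_cons, hR, List.prod_cons, ← hi]; rfl⟩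

lemma exists_len {n : ℕ} (w : Perm (Fin (n + 1))) :
    ∃ R : List (Fin n), R.length = len w ∧ wprod R = w := by
  obtain ⟨R, hR⟩ := exists_word w
  exact Nat.sInf_mem (s := {k | ∃ R : List (Fin n), R.length = k ∧ wprod R = w}) ⟨_, R, rfl, hR⟩

lemma simp'_lt {n : ℕ} (i : Fin n) {u v : Fin (n + 1)} (h : u < v)
    (hne : ¬ (u = i.castSucc ∧ v = i.succ)) : simp' i u < simp' i v := by
  unfold simp'
  simp only [Equiv.swap_apply_def]
  split_ifs with h1 h2 h3 h4 h5 h6 h7 <;>
    simp only [Fin.lt_def, Fin.ext_iff, Fin.val_castSucc, Fin.val_succ] at * <;> omega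

/-- the exchange condition -/
lemma exchange {n : ℕ} (R : List (Fin n)) {u v : Fin (n + 1)} (h : u < v)
    (hd : wprod R v < wprod R u) :
    ∃ S : List (Fin n), S.length + 1 = R.length ∧ wprod S = wprod R * Equiv.swap u v := by
  induction R using List.reverseRecOn generalizing u v with
  | nil => simp [wprod_nil] at hd; omega
  | append_singleton A i ih =>
    by_cases hne : u = i.castSucc ∧ v = i.succ
    · obtain ⟨rfl, rfl⟩ := hne
      refine ⟨A, by simp, ?_⟩
      rw [wprod_concat, mul_assoc]
      have : simp' i * Equiv.swap i.castSucc i.succ = 1 := simp'_sq i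
      rw [this, mul_one]
    · have h1 := simp'_lt i h hne
      rw [wprod_concat] at hd
      obtain ⟨S, hS, hS'⟩ := ih h1 hd
      refine ⟨S ++ [i], by simp [hS], ?_⟩
      rw [wprod_concat, wprod_concat, hS', mul_assoc, mul_assoc]
      congr 1
      exact (Equiv.mul_swap_eq_swap_mul (simp' i) u v).symm

lemma len_lt {n : ℕ} (w : Perm (Fin (n + 1))) (i : Fin n) :
    len w < len (w * simp' i) ↔ w i.castSucc < w i.succ := by
  have key : ∀ w : Perm (Fin (n + 1)), w i.succ < w i.castSucc → len (w * simp' i) < len w := by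
    intro w h
    obtain ⟨R, hR, rfl⟩ := exists_len w
    obtain ⟨S, hS, hS'⟩ := exchange R (u := i.castSucc) (v := i.succ) (Fin.castSucc_lt_succ) h
    have : len (wprod R * simp' i) ≤ S.length := by
      have := len_le S
      rw [hS'] at this
      exact this
    omega
  constructor
  · intro h
    by_contra hc
    rcases lt_or_eq_of_le (not_lt.1 hc) with h' | h'
    · have := key w h'; omega
    · have := w.injective h'
      exact absurd this (ne_of_gt Fin.castSucc_lt_succ)
  · intro h
    have := key (w * simp' i) (by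
      simpa [simp', Equiv.Perm.mul_apply] using h)
    rwa [mul_assoc, simp'_sq, mul_one] at this

/-- a permutation as a state -/
def emb {n : ℕ} (w : Perm (Fin (n + 1))) : St :=
  fun k => if h : k < n + 1 then (w ⟨k, h⟩ : ℕ) else k

lemma emb_inj {n : ℕ} : Function.Injective (emb (n := n)) := by
  intro v w h
  ext k
  have := congrFun h k
  simpa [emb, k.2] using this

lemma emb_one {n : ℕ} : emb (1 : Perm (Fin (n + 1))) = id := by
  funext k
  unfold emb
  split_ifs <;> rfl

lemma emb_castSucc {n : ℕ} (w : Perm (Fin (n + 1))) (i : Fin n) :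
    emb w i = (w i.castSucc : ℕ) := by
  unfold emb
  rw [dif_pos (by omega)]
  rfl

lemma emb_succ {n : ℕ} (w : Perm (Fin (n + 1))) (i : Fin n) :
    emb w (i + 1) = (w i.succ : ℕ) := by
  unfold emb
  rw [dif_pos (by omega)]
  rfl

lemma emb_mul {n : ℕ} (w : Perm (Fin (n + 1))) (i : Fin n) :
    emb (w * simp' i) = sw i (emb w) := by
  funext k
  by_cases h1 : k = i
  · subst h1
    rw [sw_left, emb_succ, emb_castSucc]
    simp [simp']
  · by_cases h2 : k = i + 1
    · subst h2
      rw [sw_right, emb_succ, emb_castSucc]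
      simp [simp']
    · rw [sw_other _ h1 h2]
      unfold emb
      by_cases hk : k < n + 1
      · rw [dif_pos hk, dif_pos hk, Equiv.Perm.mul_apply]
        congr 2
        unfold simp'
        apply Equiv.swap_apply_of_ne_of_ne
        · intro h; apply h1; simpa [Fin.ext_iff] using h
        · intro h; apply h2; simpa [Fin.ext_iff] using h
      · rw [dif_neg hk, dif_neg hk]

lemma emb_run {n : ℕ} (w : Perm (Fin (n + 1))) (R : List (Fin n)) :
    run (emb w) (R.map Fin.val) = emb (w * wprod R) := by
  induction R generalizing w with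
  | nil => simp [wprod_nil]
  | cons i R ih =>
    rw [List.map_cons, run_cons, ← emb_mul, ih, wprod_cons, mul_assoc]

/-- reduced words -/
def Rdc {n : ℕ} (R : List (Fin n)) : Prop := len (wprod R) = R.length

lemma Rdc.init {n : ℕ} {A : List (Fin n)} {i : Fin n} (h : Rdc (A ++ [i])) : Rdc A := by
  unfold Rdc at *
  obtain ⟨S, hS, hS'⟩ := exists_len (wprod A)
  have h1 := len_le A
  have h2 := len_le (S ++ [i])
  rw [wprod_concat, hS', ← wprod_concat, h] at h2
  simp at h2
  omega

lemma Rdc.red {n : ℕ} {R : List (Fin n)} (h : Rdc R) :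
    Red (emb (1 : Perm (Fin (n + 1)))) (R.map Fin.val) := by
  induction R using List.reverseRecOn with
  | nil => trivial
  | append_singleton A i ih =>
    rw [List.map_append, Red_append]
    refine ⟨ih h.init, ?_⟩
    rw [emb_run, one_mul, List.map_cons, List.map_nil, Red_cons]
    refine ⟨?_, trivial⟩
    rw [emb_castSucc, emb_succ]
    have h1 : len (wprod A) < len (wprod A * simp' i) := by
      have h2 := h.init
      unfold Rdc at h h2
      rw [wprod_concat] at h
      rw [h, h2]; simp
    exact (len_lt _ _).1 h1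

/-- right multiplication by `T_i` -/
noncomputable def rT {n : ℕ} (q : ℤ) (i : Fin n) :
    (Perm (Fin (n + 1)) →₀ ℤ) →ₗ[ℤ] (Perm (Fin (n + 1)) →₀ ℤ) :=
  Finsupp.linearCombination ℤ fun w =>
    if len w < len (w * simp' i) then Finsupp.single (w * simp' i) 1
    else (q - 1) • Finsupp.single w 1 + q • Finsupp.single (w * simp' i) 1

lemma rT_single {n : ℕ} (q : ℤ) (i : Fin n) (w : Perm (Fin (n + 1))) :
    rT q i (Finsupp.single w 1) = if len w < len (w * simp' i) then Finsupp.single (w * simp' i) 1
    else (q - 1) • Finsupp.single w 1 + q • Finsupp.single (w * simp' i) 1 := by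
  simp [rT]

/-- the product of the `1 + T_i` over a word, as a vector -/
noncomputable def vec {n : ℕ} (q : ℤ) (R : List (Fin n)) : Perm (Fin (n + 1)) →₀ ℤ :=
  R.foldl (fun v i => v + rT q i v) (Finsupp.single 1 1)

/-- embedding of the free module -/
noncomputable def E {n : ℕ} : (Perm (Fin (n + 1)) →₀ ℤ) →ₗ[ℤ] (St →₀ ℤ) :=
  Finsupp.lmapDomain ℤ ℤ emb

lemma E_single {n : ℕ} (w : Perm (Fin (n + 1))) :
    E (Finsupp.single w 1) = Finsupp.single (emb w) 1 := by
  simp [E]

lemma E_step {n : ℕ} (q : ℤ) (i : Fin n) (v : Perm (Fin (n + 1)) →₀ ℤ) :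
    E (v + rT q i v) = M q i (E v) := by
  have : E ∘ₗ (LinearMap.id + rT q i) = M q i ∘ₗ E (n := n) := by
    apply Finsupp.lhom_ext'
    intro w
    apply LinearMap.ext_ring
    simp only [LinearMap.comp_apply, Finsupp.lsingle_apply, LinearMap.add_apply,
      LinearMap.id_apply]
    rw [E_single, M_single, rT_single, map_add, E_single]
    unfold wt
    rw [emb_castSucc, emb_succ]
    by_cases h : len w < len (w * simp' i)
    · rw [if_pos h, if_pos (Fin.lt_def.1 ((len_lt w i).1 h)), E_single, emb_mul, one_smul]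
    · rw [if_neg h, if_neg (fun h' => h ((len_lt w i).2 (Fin.lt_def.2 h'))), map_add, map_smul,
        map_smul, E_single, E_single, emb_mul, smul_add, sub_smul, one_smul]
      abel
  exact LinearMap.congr_fun this v

lemma E_foldl {n : ℕ} (q : ℤ) (R : List (Fin n)) (v : Perm (Fin (n + 1)) →₀ ℤ) :
    E (R.foldl (fun v i => v + rT q i v) v) = XL q (R.map Fin.val) (E v) := by
  induction R generalizing v with
  | nil => rfl
  | cons i R ih =>
    rw [List.foldl_cons, ih, E_step, List.map_cons]
    rfl

lemma E_vec {n : ℕ} (q : ℤ) (R : List (Fin n)) :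
    E (vec q R) = X q (R.map Fin.val) id := by
  unfold vec
  rw [E_foldl, E_single, emb_one]
  rfl

/-- one commutation move -/
inductive Move {n : ℕ} : List (Fin n) → List (Fin n) → Prop
  | mk (A : List (Fin n)) (i j : Fin n) (B : List (Fin n))
      (h : (i : ℕ) + 1 < j ∨ (j : ℕ) + 1 < i) : Move (A ++ i :: j :: B) (A ++ j :: i :: B)

/-- same commutation class -/
def SameClass {n : ℕ} : List (Fin n) → List (Fin n) → Prop := Relation.ReflTransGen Move

lemma lift_CE {n : ℕ} {R : List (Fin n)} {S : List ℕ} (h : CE (R.map Fin.val) S) :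
    ∃ S' : List (Fin n), S = S'.map Fin.val ∧ SameClass R S' := by
  induction h with
  | refl => exact ⟨R, rfl, Relation.ReflTransGen.refl⟩
  | tail _ h2 ih =>
    obtain ⟨S', rfl, hS'⟩ := ih
    generalize hU : List.map Fin.val S' = U at h2
    obtain ⟨A, i, j, B, hij⟩ := h2
    obtain ⟨A', C, rfl, rfl, hC⟩ := List.map_eq_append_iff.1 hU
    obtain ⟨i', C1, rfl, rfl, hC1⟩ := List.map_eq_cons_iff.1 hC
    obtain ⟨j', C, rfl, rfl, rfl⟩ := List.map_eq_cons_iff.1 hC1
    exact ⟨A' ++ j' :: i' :: C, by simp, hS'.tail (Move.mk A' i' j' C hij)⟩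

/-- equal vectors, same class -/
theorem core {n : ℕ} {q : ℤ} (hq : 0 < q) {R1 R2 : List (Fin n)} (h1 : Rdc R1) (h2 : Rdc R2)
    (h : wprod R1 = wprod R2) (hv : vec q R1 = vec q R2) : SameClass R1 R2 := by
  have hE : X q (R1.map Fin.val) id = X q (R2.map Fin.val) id := by
    rw [← E_vec, ← E_vec, hv]
  have r1 := h1.red
  have r2 := h2.red
  rw [emb_one] at r1 r2
  have hrun : run id (R1.map Fin.val) = run id (R2.map Fin.val) := by
    rw [← emb_one (n := n), emb_run, emb_run, h]
  have hb : ∀ R : List (Fin n), ∀ k ∈ R.map Fin.val, k + 1 < n + 1 := by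
    intro R k hk
    obtain ⟨i, _, rfl⟩ := List.mem_map.1 hk
    omega
  have := main hq (n + 1) (x0 := id) strictMono_id (hb R1) (hb R2) r1 r2 hrun hE
  obtain ⟨S, hS, hc⟩ := lift_CE this
  have : R2 = S := (List.map_injective_iff.2 Fin.val_injective) hS
  rw [this]; exact hc

end Q120.BS
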