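import Pool.Agent.Q120.BS.Main

namespace Q120.BS

lemma mid_loc {y : St} (hy : Function.Injective y) (i a : ℕ) :
    (loc a y [i + 1, i, i + 1] = if a = y i then [y (i + 2), y (i + 1)] else
      if a = y (i + 1) then [y (i + 2), y i] else if a = y (i + 2) then [y (i + 1), y i] else []) ∧
    (loc a y [i, i + 1, i] = if a = y i then [y (i + 1), y (i + 2)] else
      if a = y (i + 1) then [y i, y (i + 2)] else if a = y (i + 2) then [y i, y (i + 1)] else []) := by
  have n1 : y i ≠ y (i + 1) := fun h => by have := hy h; omega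
  have n2 : y i ≠ y (i + 2) := fun h => by have := hy h; omega
  have n3 : y (i + 1) ≠ y (i + 2) := fun h => by have := hy h; omega
  have e1 : sw (i + 1) y i = y i := sw_other _ (by omega) (by omega)
  have e2 : sw (i + 1) y (i + 1) = y (i + 2) := sw_left _ _
  have e3 : sw (i + 1) y (i + 1 + 1) = y (i + 1) := sw_right _ _
  have e4 : sw i (sw (i + 1) y) (i + 1) = y i := by rw [sw_right, e1]
  have e5 : sw i (sw (i + 1) y) (i + 1 + 1) = y (i + 1) := by
    rw [sw_other _ (by omega) (by omega), e3]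
  have f1 : sw i y i = y (i + 1) := sw_left _ _
  have f2 : sw i y (i + 1) = y i := sw_right _ _
  have f3 : sw i y (i + 1 + 1) = y (i + 2) := sw_other _ (by omega) (by omega)
  have f4 : sw (i + 1) (sw i y) i = y (i + 1) := by
    rw [sw_other _ (by omega) (by omega), f1]
  have f5 : sw (i + 1) (sw i y) (i + 1) = y (i + 2) := by rw [sw_left, f3]
  have e0 : y (i + 1 + 1) = y (i + 2) := rfl
  constructor
  · simp only [loc_cons, loc_nil, part, e0, e1, e2, e3, e4, e5]
    by_cases h1 : a = y i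
    · subst h1; simp [n1.symm, n2.symm]
    · by_cases h2 : a = y (i + 1)
      · subst h2; simp [n1, n1.symm, n3.symm]
      · by_cases h3 : a = y (i + 2)
        · subst h3; simp [n2, n2.symm, n3, n3.symm]
        · simp [h1, h2, h3, Ne.symm h1, Ne.symm h2, Ne.symm h3]
  · simp only [loc_cons, loc_nil, part, f1, f2, f3, f4, f5]
    by_cases h1 : a = y i
    · subst h1; simp [n1.symm, n2.symm]
    · by_cases h2 : a = y (i + 1)
      · subst h2; simp [n1, n1.symm, n3.symm]
      · by_cases h3 : a = y (i + 2)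
        · subst h3; simp [n2, n2.symm, n3, n3.symm]
        · simp [h1, h2, h3, Ne.symm h1, Ne.symm h2, Ne.symm h3]

lemma mid_filter {y : St} (hy : Function.Injective y) (i a : ℕ) :
    (a ≠ y i → (loc a y [i, i + 1, i]).filter (fun b => b ≠ y i)
      = (loc a y [i + 1, i, i + 1]).filter (fun b => b ≠ y i)) ∧
    (a ≠ y (i + 2) → (loc a y [i, i + 1, i]).filter (fun b => b ≠ y (i + 2))
      = (loc a y [i + 1, i, i + 1]).filter (fun b => b ≠ y (i + 2))) := by
  obtain ⟨h1, h2⟩ := mid_loc hy i a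
  have n1 : y i ≠ y (i + 1) := fun h => by have := hy h; omega
  have n2 : y i ≠ y (i + 2) := fun h => by have := hy h; omega
  have n3 : y (i + 1) ≠ y (i + 2) := fun h => by have := hy h; omega
  rw [h1, h2]
  constructor
  · intro h
    split_ifs <;> simp_all [n1, n2, n3, n1.symm, n2.symm, n3.symm]
  · intro h
    split_ifs <;> simp_all [n1, n2, n3, n1.symm, n2.symm, n3.symm]

/-- moving the crossing of the extreme wires over one wire -/
lemma step {x0 : St} (hx : StrictMono x0) {N : ℕ} (hN : 2 ≤ N) {R1 R2 : List ℕ}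
    (c : Ctx x0 N R1 R2) {A1 B1 A2 B2 : List ℕ} {i1 i2 : ℕ} (d1 : Dec x0 N R1 A1 i1 B1)
    (d2 : Dec x0 N R2 A2 i2 B2)
    (hP : (loc (x0 0) x0 A1).length < (loc (x0 0) x0 A2).length) :
    ∃ A' B', CE R1 (A' ++ ([i1 + 1, i1, i1 + 1] ++ B')) ∧
      Ctx x0 N (A' ++ ([i1, i1 + 1, i1] ++ B')) R2 ∧
      Dec x0 N (A' ++ ([i1, i1 + 1, i1] ++ B')) (A' ++ [i1]) (i1 + 1) (i1 :: B') ∧
      (loc (x0 0) x0 (A' ++ [i1])).length = (loc (x0 0) x0 A1).length + 1 ∧
      fin 0 A' = i1 ∧ fin (N - 1) A' = i1 + 2 := by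
  have hxi := hx.injective
  set s := run x0 A1 with hs
  have hsi : Function.Injective s := run_inj _ hxi
  have hs0 : s i1 = x0 0 := d1.h0
  have hs1 : s (i1 + 1) = x0 (N - 1) := d1.h1
  -- the label j
  have hfil := locz_filter hx hN c d1 d2
  obtain ⟨j, S', hS', hjP2⟩ : ∃ j S', loc (x0 0) (sw i1 s) B1 = j :: S' ∧ j ∈ loc (x0 0) x0 A2 := by
    rcases List.append_eq_append_iff.1 hfil with ⟨e, h1, h2⟩ | ⟨e, h1, h2⟩
    · cases e with
      | nil => rw [h1] at hP; simp at hP
      | cons j e => exact ⟨j, _, h2, by rw [h1]; simp⟩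
    · rw [h1] at hP; simp at hP
  have hzR1 := D_locz hx hN c.b1 c.r1 d1
  have hzR2 := D_locz hx hN c.b2 c.r2 d2
  have nz1 := loc_nodup hxi c.r1 (x0 0)
  have nz2 := loc_nodup hxi c.r2 (x0 0)
  have hjR1 : j ∈ loc (x0 0) x0 R1 := by rw [hzR1, hS']; simp
  obtain ⟨u, hu, hu0, huN⟩ := mem_range_lt hx hN c d1 hjR1
  have hjM : j ≠ x0 (N - 1) := by
    rintro rfl
    rw [hzR2] at nz2
    exact List.disjoint_of_nodup_append nz2 hjP2 (by simp)
  have hum : u ≠ N - 1 := by rintro rfl; exact hjM hu.symm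
  have hum' : u < N - 1 := by omega
  have hjP1 : j ∉ loc (x0 0) x0 A1 := by
    intro h
    rw [hzR1, hS'] at nz1
    exact List.disjoint_of_nodup_append nz1 h (by simp)
  subst hu
  have I1 := D_iff hx hN c.b1 c.r1 d1 hu0 hum'
  have I2 := D_iff hx hN c.b2 c.r2 d2 hu0 hum'
  have hMA1 : x0 (N - 1) ∈ loc (x0 u) x0 A1 := by
    by_contra hh; exact hjP1 (I1.2 hh)
  have hzA1 : x0 0 ∉ loc (x0 u) x0 A1 := fun h => hjP1 ((loc_mem_symm hxi _).1 h)
  have hzA2 : x0 0 ∈ loc (x0 u) x0 A2 := (loc_mem_symm hxi _).1 hjP2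
  have hMA2 : x0 (N - 1) ∉ loc (x0 u) x0 A2 := I2.1 hjP2
  have eu1 := D_loco hx hN c.b1 c.r1 d1 (u := u) (by omega) hum
  have eu2 := D_loco hx hN c.b2 c.r2 d2 (u := u) (by omega) hum
  have nu1 := loc_nodup hxi c.r1 (x0 u)
  have nu2 := loc_nodup hxi c.r2 (x0 u)
  have hzR1u : x0 0 ∈ loc (x0 u) x0 R1 := (loc_mem_symm hxi _).1 hjR1
  have hzB1 : x0 0 ∈ loc (x0 u) (sw i1 (run x0 A1)) B1 := by
    rw [eu1, List.mem_append] at hzR1u
    exact hzR1u.resolve_left hzA1
  have hMR1 : x0 (N - 1) ∈ loc (x0 u) x0 R1 := by rw [eu1]; simp [hMA1]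
  have hMR2 : x0 (N - 1) ∈ loc (x0 u) x0 R2 := by
    rw [cross_iff hxi c.r1 hum' (hx hum')] at hMR1
    rw [cross_iff hxi c.r2 hum' (hx hum'), ← fin_eq_of_run hxi c.hrun, ← fin_eq_of_run hxi c.hrun]
    exact hMR1
  have hMB2 : x0 (N - 1) ∈ loc (x0 u) (sw i2 (run x0 A2)) B2 := by
    rw [eu2, List.mem_append] at hMR2
    exact hMR2.resolve_left hMA2
  obtain ⟨p, v, hpv⟩ : ∃ p v, loc (x0 u) x0 R1 = p ++ x0 (N - 1) :: x0 0 :: v := by
    rcases adj_swap (zM hx hN) nu1 nu2 (c.F1 (x0 u) (fun h => by have := hxi h; omega))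
      (c.F2 (x0 u) (fun h => by have := hxi h; omega)) with h | ⟨p, r, e1, e2⟩ |
      ⟨p, r, e1, e2⟩
    · exfalso
      rw [eu1] at h nu1
      rw [eu2] at h
      exact no_split2 nu1 h hMA1 hzB1 hzA2 hMB2
    · exfalso
      rw [eu1] at e1 nu1
      exact no_split nu1 e1 hMA1 hzA1
    · exact ⟨p, r, e1⟩
  rw [eu1] at hpv nu1
  obtain ⟨hlA, hlB⟩ := split_mid nu1 hpv hMA1 hzB1
  -- pull in B1
  set s' := sw i1 s with hs'
  have hs'i : Function.Injective s' := sw_inj hsi
  have hs'0 : s' (i1 + 1) = x0 0 := by rw [hs', sw_right, hs0]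
  have hs'1 : s' i1 = x0 (N - 1) := by rw [hs', sw_left, hs1]
  obtain ⟨w, hw⟩ : ∃ w, s' w = x0 u :=
    ⟨fin u (A1 ++ [i1]), by
      have := run_fin x0 (A1 ++ [i1]) u
      rw [run_append] at this
      exact this⟩
  have hpull := pull hs'i (u := i1 + 1) (v := w) (R := B1) (l1 := S') (l2 := v)
    (by rw [hs'0, hw]; exact hS') (by rw [hs'0, hw]; exact hlB)
  have hB : w = i1 + 2 ∧ ∃ B', CE B1 ((i1 + 1) :: B') := by
    rcases hpull with ⟨h1, h2⟩ | ⟨h1, _⟩
    · exact ⟨h1, h2⟩
    · exfalso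
      have : w = i1 := by omega
      rw [this, hs'1] at hw
      exact hum (hxi hw).symm
  obtain ⟨hw2, B', hB'⟩ := hB
  have hs2 : s (i1 + 2) = x0 u := by
    rw [← hw, hw2, hs', sw_other _ (by omega) (by omega)]
  -- pull in A1
  have redA : Red x0 A1 := D_redA hx hN c.b1 c.r1 d1
  have UpM : Up (N - 1) A1 := Up_max hxi (by omega)
    (fun a ha hne => hx (by omega)) (D_bA c.b1 d1) redA
  have DnM : Dn (i1 + 1) A1.reverse := by
    have := Dn_reverse UpM
    rwa [D_finm hx d1] at this
  obtain ⟨C, hC⟩ := pull_adj hsi (u := i1 + 1) (B := A1.reverse) (l := p.reverse)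
    (by
      have := loc_reverse hxi (x0 u) A1
      rw [← hs] at this
      rw [show i1 + 1 + 1 = i1 + 2 by ring, hs2, hs1, this, hlA]
      simp) (Dn_split DnM)
  have hA' : CE A1 (C.reverse ++ [i1 + 1]) := by
    have := hC.reverse
    simpa using this
  set A' := C.reverse with hAdef
  set y := run x0 A' with hy
  have hyi : Function.Injective y := run_inj _ hxi
  have hys : sw (i1 + 1) y = s := by
    have := hA'.run x0
    rw [run_append] at this
    exact this.symm
  have hy' : y = sw (i1 + 1) s := by rw [← hys, sw_sw]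
  have y0 : y i1 = x0 0 := by rw [hy', sw_other _ (by omega) (by omega), hs0]
  have y1 : y (i1 + 1) = x0 u := by rw [hy', sw_left]; exact hs2
  have y2 : y (i1 + 2) = x0 (N - 1) := by
    rw [hy']; rw [show i1 + 2 = i1 + 1 + 1 by ring, sw_right, hs1]
  have hCE : CE R1 (A' ++ ([i1 + 1, i1, i1 + 1] ++ B')) := by
    rw [d1.eq]
    have h1 : CE (A1 ++ i1 :: B1) ((A' ++ [i1 + 1]) ++ i1 :: B1) := hA'.append_right _
    have h2 : CE ((A' ++ [i1 + 1]) ++ i1 :: B1) ((A' ++ [i1 + 1]) ++ i1 :: ((i1 + 1) :: B')) :=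
      (hB'.cons i1).append_left _
    have h3 := h1.trans h2
    simpa using h3
  have hred := (hCE.Red x0).1 c.r1
  rw [Red_append, ← hy, Red_append] at hred
  have hrunmid : run y [i1 + 1, i1, i1 + 1] = run y [i1, i1 + 1, i1] := by
    simp only [run_cons, run_nil]
    exact braid i1 y
  have hlt1 : x0 0 < x0 u := hx hu0
  have hlt2 : x0 u < x0 (N - 1) := hx hum'
  have hlt3 : x0 0 < x0 (N - 1) := hx (by omega)
  refine ⟨A', B', hCE, ?_, ?_, ?_, ?_, ?_⟩
  · -- Ctx
    have hlocR1 : ∀ a, loc a x0 R1 = loc a x0 A' ++ (loc a y [i1 + 1, i1, i1 + 1] ++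
        loc a (run y [i1, i1 + 1, i1]) B') := by
      intro a
      rw [hCE.loc hxi, loc_append, loc_append, ← hy, hrunmid]
    have hlocS : ∀ a, loc a x0 (A' ++ ([i1, i1 + 1, i1] ++ B')) = loc a x0 A' ++
        (loc a y [i1, i1 + 1, i1] ++ loc a (run y [i1, i1 + 1, i1]) B') := by
      intro a
      rw [loc_append, loc_append, ← hy]
    refine ⟨?_, c.b2, ?_, c.r2, ?_, ?_, ?_⟩
    · intro k hk
      apply c.b1
      rw [hCE.mem]
      simp only [List.mem_append, List.mem_cons, List.not_mem_nil, or_false] at hk ⊢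
      tauto
    · rw [Red_append, ← hy, Red_append]
      refine ⟨hred.1, ?_, ?_⟩
      · simp only [Red_cons, Red_nil, and_true]
        refine ⟨by rw [y0, y1]; exact hlt1, ?_, ?_⟩
        · rw [sw_right, y0, show i1 + 1 + 1 = i1 + 2 by ring,
            sw_other _ (by omega) (by omega), y2]; exact hlt3
        · rw [sw_other (i := i1 + 1) (k := i1) _ (by omega) (by omega), sw_left, y1, sw_left,
            show i1 + 1 + 1 = i1 + 2 by ring, sw_other _ (by omega) (by omega), y2]
          exact hlt2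
      · rw [← hrunmid]; exact hred.2.2
    · rw [← c.hrun, hCE.run x0, run_append, run_append, run_append, run_append, ← hy, hrunmid]
    · intro a ha
      rw [← c.F1 a ha, hlocR1, hlocS, List.filter_append, List.filter_append, List.filter_append,
        List.filter_append]
      have := (mid_filter hyi i1 a).1 (by rw [y0]; exact ha)
      rw [y0] at this
      rw [this]
    · intro a ha
      rw [← c.F2 a ha, hlocR1, hlocS, List.filter_append, List.filter_append, List.filter_append,
        List.filter_append]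
      have := (mid_filter hyi i1 a).2 (by rw [y2]; exact ha)
      rw [y2] at this
      rw [this]
  · refine ⟨by simp, ?_, ?_⟩
    · rw [run_append, run_cons, run_nil, ← hy, sw_right, y0]
    · rw [run_append, run_cons, run_nil, ← hy, show i1 + 1 + 1 = i1 + 2 by ring,
        sw_other _ (by omega) (by omega), y2]
  · rw [hA'.loc hxi, loc_append, loc_append, ← hy]
    have q1 : loc (x0 0) y [i1] = [x0 u] := by
      rw [loc_cons, loc_nil, ← y0, part_left, y1]; rfl
    have q2 : loc (x0 0) y [i1 + 1] = [] := by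
      rw [loc_cons, loc_nil, part_eq_nil]
      · rfl
      · rw [y1]; omega
      · rw [show i1 + 1 + 1 = i1 + 2 by ring, y2]; omega
    rw [q1, q2]; simp
  · apply hyi
    rw [hy, run_fin, ← hy, y0]
  · apply hyi
    rw [hy, run_fin, ← hy, y2]

lemma descend {q : ℤ} (hq : 0 < q) {x0 : St} (hx : StrictMono x0) {N : ℕ} (hN : 2 ≤ N)
    {R2 A2 B2 : List ℕ} {i2 : ℕ} (d2 : Dec x0 N R2 A2 i2 B2) (d : ℕ) :
    ∀ {R1 A1 B1 : List ℕ} {i1 : ℕ}, Ctx x0 N R1 R2 → Dec x0 N R1 A1 i1 B1 →
      (loc (x0 0) x0 A1).length + d = (loc (x0 0) x0 A2).length →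
      W q (fin (N - 1) R2) R2 0 ≤ W q (fin (N - 1) R2) R1 0 ∧
      (0 < d → W q (fin (N - 1) R2) R2 0 < W q (fin (N - 1) R2) R1 0) := by
  induction d with
  | zero =>
    intro R1 A1 B1 i1 c d1 hlen
    have := ce_of_eq hx hN c d1 d2 (by omega)
    refine ⟨?_, fun h => absurd h (by omega)⟩
    rw [W_CE this]
  | succ d ih =>
    intro R1 A1 B1 i1 c d1 hlen
    obtain ⟨A', B', hCE, c', d', hl, hf0, hfm⟩ := step hx hN c d1 d2 (by omega)
    have h1 := (ih c' d' (by omega)).1
    have hxi := hx.injective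
    have hDn : Dn 0 (A' ++ ([i1, i1 + 1, i1] ++ B')) :=
      Dn_min hxi (fun u hu => hx (by omega)) c'.r1
    have hUp : Up (N - 1) (A' ++ ([i1, i1 + 1, i1] ++ B')) :=
      Up_max hxi (by omega) (fun a ha hne => hx (by omega)) c'.b1 c'.r1
    rw [Dn_append] at hDn
    rw [Up_append, hfm, Up_append] at hUp
    have hmid : fin (i1 + 2) [i1, i1 + 1, i1] = i1 := by
      simp [mv]
    rw [hmid] at hUp
    have hfin : fin (N - 1) R2 = fin i1 B' := by
      rw [← fin_eq_of_run hxi c'.hrun, fin_append, hfm, fin_append, hmid]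
    have hlt := (flip_lt hq hDn.1 hf0 hUp.2.2 0 le_rfl).2 rfl
    rw [← hfin, ← W_CE hCE] at hlt
    exact ⟨by linarith, fun _ => by linarith⟩

/-- the main induction -/
theorem main {q : ℤ} (hq : 0 < q) (N : ℕ) : ∀ {x0 : St}, StrictMono x0 → ∀ {R1 R2 : List ℕ},
    (∀ k ∈ R1, k + 1 < N) → (∀ k ∈ R2, k + 1 < N) → Red x0 R1 → Red x0 R2 →
    run x0 R1 = run x0 R2 → X q R1 x0 = X q R2 x0 → CE R1 R2 := by
  induction N using Nat.strong_induction_on with
  | _ N ih =>
  intro x0 hx R1 R2 b1 b2 r1 r2 hrun hX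
  have hxi := hx.injective
  by_cases hN : 2 ≤ N
  swap
  · have e1 : R1 = [] := by
      cases R1 with
      | nil => rfl
      | cons k R => have := b1 k (by simp); omega
    have e2 : R2 = [] := by
      cases R2 with
      | nil => rfl
      | cons k R => have := b2 k (by simp); omega
    rw [e1, e2]; exact CE.refl _
  have D1 : Dn 0 R1 := Dn_min hxi (fun u hu => hx (by omega)) r1
  have D2 : Dn 0 R2 := Dn_min hxi (fun u hu => hx (by omega)) r2
  have U1 : Up (N - 1) R1 := Up_max hxi (by omega) (fun a ha hne => hx (by omega)) b1 r1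
  have U2 : Up (N - 1) R2 := Up_max hxi (by omega) (fun a ha hne => hx (by omega)) b2 r2
  have hfin : ∀ p, fin p R1 = fin p R2 := fun p => fin_eq_of_run hxi hrun p
  have delmono : ∀ p, StrictMono (del p x0) := by
    intro p a b hab
    unfold del
    split_ifs <;> apply hx <;> omega
  -- deletion of the first wire
  have C0 : CE (wd 0 R1) (wd 0 R2) := by
    apply ih (N - 1) (by omega) (delmono 0) (wd_mem (by omega) b1) (wd_mem (by omega) b2)
      (Red_del 0 r1) (Red_del 0 r2)
    · rw [run_del, run_del, hrun, hfin]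
    · rw [← del_dn q hxi D1 (fun k hk => hx hk), ← del_dn q hxi D2 (fun k hk => hx hk), hX, hfin]
  have CM : CE (wd (N - 1) R1) (wd (N - 1) R2) := by
    apply ih (N - 1) (by omega) (delmono (N - 1)) (wd_mem (by omega) b1) (wd_mem (by omega) b2)
      (Red_del _ r1) (Red_del _ r2)
    · rw [run_del, run_del, hrun, hfin]
    · rw [← del_up q hxi U1 (fun k hk => hx hk), ← del_up q hxi U2 (fun k hk => hx hk), hX, hfin]
  have c : Ctx x0 N R1 R2 := by
    refine ⟨b1, b2, r1, r2, hrun, ?_, ?_⟩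
    · intro a ha
      rw [← loc_del hxi ha, ← loc_del hxi ha]
      exact C0.loc (del_inj hxi) a
    · intro a ha
      rw [← loc_del hxi ha, ← loc_del hxi ha]
      exact CM.loc (del_inj hxi) a
  by_cases hc : x0 (N - 1) ∈ loc (x0 0) x0 R1
  · -- the extreme wires cross
    have hc2 : x0 (N - 1) ∈ loc (x0 0) x0 R2 := by
      rw [cross_iff hxi r1 (show 0 < N - 1 by omega) (hx (by omega))] at hc
      rw [cross_iff hxi r2 (show 0 < N - 1 by omega) (hx (by omega)), ← hfin, ← hfin]
      exact hc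
    have getDec : ∀ {R : List ℕ}, Red x0 R → x0 (N - 1) ∈ loc (x0 0) x0 R →
        ∃ A i B, Dec x0 N R A i B := by
      intro R hr h
      obtain ⟨A, i, B, hR, hh⟩ := loc_split hxi h
      rcases hh with ⟨h1, h2⟩ | ⟨h1, h2⟩
      · exact ⟨A, i, B, hR, h1, h2⟩
      · exfalso
        rw [hR, Red_append, Red_cons, h1, h2] at hr
        have := hx (show 0 < N - 1 by omega)
        omega
    obtain ⟨A1, i1, B1, d1⟩ := getDec r1 hc
    obtain ⟨A2, i2, B2, d2⟩ := getDec r2 hc2
    have hW : W q (fin (N - 1) R2) R1 0 = W q (fin (N - 1) R2) R2 0 := by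
      have p1 := Ph_X (q := q) (by omega) (N := N) (t := fin (N - 1) R2) b1 hxi (k := 0)
        (fun u hu => hx (by omega))
      have p2 := Ph_X (q := q) (by omega) (N := N) (t := fin (N - 1) R2) b2 hxi (k := 0)
        (fun u hu => hx (by omega))
      rw [hX, p2] at p1
      exact (mul_left_cancel₀ (pow_ne_zero _ (by omega)) p1).symm
    rcases lt_trichotomy (loc (x0 0) x0 A1).length (loc (x0 0) x0 A2).length with h | h | h
    · exfalso
      have := (descend hq hx hN d2 ((loc (x0 0) x0 A2).length - (loc (x0 0) x0 A1).length)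
        c d1 (by omega)).2 (by omega)
      omega
    · exact ce_of_eq hx hN c d1 d2 h
    · exfalso
      have := (descend hq hx hN d1 ((loc (x0 0) x0 A1).length - (loc (x0 0) x0 A2).length)
        c.symm d2 (by omega)).2 (by omega)
      rw [hfin] at this
      omega
  · -- they do not cross
    have hc2 : x0 (N - 1) ∉ loc (x0 0) x0 R2 := by
      rw [cross_iff hxi r1 (show 0 < N - 1 by omega) (hx (by omega))] at hc
      rw [cross_iff hxi r2 (show 0 < N - 1 by omega) (hx (by omega)), ← hfin, ← hfin]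
      exact hc
    apply CE_of_loc hxi
    intro u
    rcases Nat.eq_zero_or_pos u with h0 | h0
    · subst h0
      have := c.F2 (x0 0) (zM hx hN)
      rwa [filter_ne_self hc, filter_ne_self hc2] at this
    rcases Nat.lt_or_ge u N with huN | huN
    · by_cases hum : u = N - 1
      · subst hum
        have := c.F1 (x0 (N - 1)) (zM hx hN).symm
        rwa [filter_ne_self (fun h => hc ((loc_mem_symm hxi _).1 h)),
          filter_ne_self (fun h => hc2 ((loc_mem_symm hxi _).1 h))] at this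
      · have hum' : u < N - 1 := by omega
        have k1 := cross_iff hxi r1 h0 (hx h0)
        have k2 := cross_iff hxi r2 h0 (hx h0)
        have k3 := cross_iff hxi r1 hum' (hx hum')
        have k4 := cross_iff hxi r2 hum' (hx hum')
        have k5 := cross_iff hxi r1 (show 0 < N - 1 by omega) (hx (by omega))
        rw [hfin, hfin] at k1 k3 k5
        by_cases hz : x0 u ∈ loc (x0 0) x0 R1
        · have hM : x0 (N - 1) ∉ loc (x0 u) x0 R1 := by
            intro hM
            apply hc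
            rw [k5]
            have := k1.1 hz
            have := k3.1 hM
            omega
          have hM2 : x0 (N - 1) ∉ loc (x0 u) x0 R2 := by
            rw [k4, ← k3]; exact hM
          have := c.F2 (x0 u) (fun h => by have := hxi h; omega)
          rwa [filter_ne_self hM, filter_ne_self hM2] at this
        · have hz2 : x0 u ∉ loc (x0 0) x0 R2 := by
            rw [k2, ← k1]; exact hz
          have := c.F1 (x0 u) (fun h => by have := hxi h; omega)
          rwa [filter_ne_self (fun h => hz ((loc_mem_symm hxi _).1 h)),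
            filter_ne_self (fun h => hz2 ((loc_mem_symm hxi _).1 h))] at this
    · rw [loc_nil_ge hxi huN b1, loc_nil_ge hxi huN b2]

end Q120.BS
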