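import Pool.Agent.Q120.BS.Comm

namespace Q120.BS

/-- the wire at `p` never moves down (to a larger position) -/
def Up : ℕ → List ℕ → Prop
  | _, [] => True
  | p, i :: R => i ≠ p ∧ Up (mv p i) R

/-- the wire at `p` never moves up -/
def Dn : ℕ → List ℕ → Prop
  | _, [] => True
  | p, i :: R => i + 1 ≠ p ∧ Dn (mv p i) R

@[simp] lemma Up_nil (p : ℕ) : Up p [] := trivial
@[simp] lemma Dn_nil (p : ℕ) : Dn p [] := trivial
@[simp] lemma Up_cons (p i : ℕ) (R : List ℕ) : Up p (i :: R) ↔ i ≠ p ∧ Up (mv p i) R := Iff.rfl
@[simp] lemma Dn_cons (p i : ℕ) (R : List ℕ) : Dn p (i :: R) ↔ i + 1 ≠ p ∧ Dn (mv p i) R := Iff.rfl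

lemma Up_append (p : ℕ) (A B : List ℕ) : Up p (A ++ B) ↔ Up p A ∧ Up (fin p A) B := by
  induction A generalizing p with
  | nil => simp
  | cons i A ih => simp [ih, and_assoc]

lemma Dn_append (p : ℕ) (A B : List ℕ) : Dn p (A ++ B) ↔ Dn p A ∧ Dn (fin p A) B := by
  induction A generalizing p with
  | nil => simp
  | cons i A ih => simp [ih, and_assoc]

lemma Dn_reverse {p : ℕ} {A : List ℕ} (h : Up p A) : Dn (fin p A) A.reverse := by
  induction A generalizing p with
  | nil => simp
  | cons i A ih =>
    rw [Up_cons] at h
    rw [fin_cons, List.reverse_cons, Dn_append]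
    refine ⟨ih h.2, ?_⟩
    have : ∀ (r : ℕ) (B : List ℕ), fin (fin r B) B.reverse = r := by
      intro r B
      induction B generalizing r with
      | nil => rfl
      | cons j B ihB => rw [fin_cons, List.reverse_cons, fin_append, ihB, fin_cons, fin_nil, mv_mv]
    rw [this, Dn_cons]
    refine ⟨?_, trivial⟩
    have := h.1
    unfold mv
    split_ifs <;> omega

/-- delete the label at position `p` -/
def del (p : ℕ) (x : St) : St := fun k => if k < p then x k else x (k + 1)

/-- delete the wire starting at `p` from the word -/
def wd : ℕ → List ℕ → List ℕ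
  | _, [] => []
  | p, i :: R => (if i + 1 < p then [i] else if p < i then [i - 1] else []) ++ wd (mv p i) R

@[simp] lemma wd_nil (p : ℕ) : wd p [] = [] := rfl

lemma wd_lt {p i : ℕ} (R : List ℕ) (h : i + 1 < p) : wd p (i :: R) = i :: wd p R := by
  have : mv p i = p := by unfold mv; split_ifs <;> omega
  simp [wd, h, this]

lemma wd_gt {p i : ℕ} (R : List ℕ) (h : p < i) : wd p (i :: R) = (i - 1) :: wd p R := by
  have : mv p i = p := by unfold mv; split_ifs <;> omega
  have h2 : ¬ i + 1 < p := by omega
  simp [wd, h, h2, this]

lemma wd_eq (p : ℕ) (R : List ℕ) : wd p (p :: R) = wd (p + 1) R := by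
  simp [wd, mv]

lemma wd_succ (i : ℕ) (R : List ℕ) : wd (i + 1) (i :: R) = wd i R := by
  simp [wd, mv]

lemma del_inj {p : ℕ} {x : St} (hx : Function.Injective x) : Function.Injective (del p x) := by
  intro a b h
  unfold del at h
  split_ifs at h <;> (have := hx h; omega)

lemma del_sw_lt {p i : ℕ} (x : St) (h : i + 1 < p) : del p (sw i x) = sw i (del p x) := by
  funext k
  simp only [del, sw]
  split_ifs <;> omega

lemma del_sw_gt {p i : ℕ} (x : St) (h : p < i) : del p (sw i x) = sw (i - 1) (del p x) := by
  funext k
  simp only [del, sw]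
  split_ifs <;> first | omega | rfl | (congr 1; omega)

lemma del_sw_eq (p : ℕ) (x : St) : del (p + 1) (sw p x) = del p x := by
  funext k
  simp only [del, sw]
  split_ifs <;> first | omega | rfl | (congr 1; omega)

lemma del_sw_succ (i : ℕ) (x : St) : del i (sw i x) = del (i + 1) x := by
  funext k
  simp only [del, sw]
  split_ifs <;> first | omega | rfl | (congr 1; omega)

lemma run_del (p : ℕ) (x : St) (R : List ℕ) : run (del p x) (wd p R) = del (fin p R) (run x R) := by
  induction R generalizing p x with
  | nil => rfl
  | cons i R ih =>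
    rcases lt_trichotomy (i + 1) p with h | h | h
    · have hm : mv p i = p := by unfold mv; split_ifs <;> omega
      rw [wd_lt R h, run_cons, ← del_sw_lt x h, ih, fin_cons, run_cons, hm]
    · subst h
      have hm : mv (i + 1) i = i := by simp [mv]
      rw [wd_succ, ← del_sw_succ, ih, fin_cons, run_cons, hm]
    · rcases Nat.lt_or_ge p i with h' | h'
      · have hm : mv p i = p := by unfold mv; split_ifs <;> omega
        rw [wd_gt R h', run_cons, ← del_sw_gt x h', ih, fin_cons, run_cons, hm]
      · have hpi : i = p := by omega
        subst hpi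
        have hm : mv i i = i + 1 := by simp [mv]
        rw [wd_eq, ← del_sw_eq, ih, fin_cons, run_cons, hm]

lemma Red_del (p : ℕ) {x : St} {R : List ℕ} (h : Red x R) : Red (del p x) (wd p R) := by
  induction R generalizing p x with
  | nil => trivial
  | cons i R ih =>
    rw [Red_cons] at h
    rcases lt_trichotomy (i + 1) p with h' | h' | h'
    · rw [wd_lt R h', Red_cons, ← del_sw_lt x h']
      refine ⟨?_, ih p h.2⟩
      unfold del
      rw [if_pos (by omega), if_pos (by omega)]
      exact h.1
    · subst h'
      rw [wd_succ, ← del_sw_succ]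
      exact ih _ h.2
    · rcases Nat.lt_or_ge p i with h'' | h''
      · rw [wd_gt R h'', Red_cons, ← del_sw_gt x h'']
        refine ⟨?_, ih p h.2⟩
        unfold del
        rw [if_neg (by omega), if_neg (by omega)]
        have : i - 1 + 1 = i := by omega
        rw [this]
        exact h.1
      · have hpi : i = p := by omega
        subst hpi
        rw [wd_eq, ← del_sw_eq]
        exact ih _ h.2

lemma wd_mem {p N : ℕ} {R : List ℕ} (hp : p < N) (h : ∀ i ∈ R, i + 1 < N) :
    ∀ i ∈ wd p R, i + 1 < N - 1 := by
  induction R generalizing p with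
  | nil => simp
  | cons k R ih =>
    have hk := h k (by simp)
    have hR : ∀ i ∈ R, i + 1 < N := fun i hi => h i (by simp [hi])
    rcases lt_trichotomy (k + 1) p with h' | h' | h'
    · rw [wd_lt R h']
      intro i hi
      rcases List.mem_cons.1 hi with rfl | hi
      · omega
      · exact ih hp hR i hi
    · subst h'
      rw [wd_succ]
      exact ih (by omega) hR
    · rcases Nat.lt_or_ge p k with h'' | h''
      · rw [wd_gt R h'']
        intro i hi
        rcases List.mem_cons.1 hi with rfl | hi
        · omega
        · exact ih hp hR i hi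
      · have hpi : k = p := by omega
        subst hpi
        rw [wd_eq]
        exact ih (by omega) hR

/-- crossing lists after deleting a wire -/
lemma loc_del {p : ℕ} {x : St} (hx : Function.Injective x) {a : ℕ} (ha : a ≠ x p) (R : List ℕ) :
    loc a (del p x) (wd p R) = (loc a x R).filter (fun b => b ≠ x p) := by
  induction R generalizing p x with
  | nil => simp
  | cons i R ih =>
    have hne : x i ≠ x (i + 1) := fun h => by have := hx h; omega
    rw [loc_cons, List.filter_append]
    have key : ∀ q : ℕ, sw i x q = x p → loc a (del q (sw i x)) (wd q R)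
        = (loc a (sw i x) R).filter (fun b => b ≠ x p) := by
      intro q hq
      have := ih (p := q) (x := sw i x) (sw_inj hx) (by rw [hq]; exact ha)
      rw [this, hq]
    rcases lt_trichotomy (i + 1) p with h' | h' | h'
    · rw [wd_lt R h', loc_cons, ← del_sw_lt x h', key p (sw_other x (by omega) (by omega))]
      congr 1
      have e1 : del p x i = x i := if_pos (by omega)
      have e2 : del p x (i + 1) = x (i + 1) := if_pos (by omega)
      have e3 : part a (del p x) i = part a x i := by unfold part; rw [e1, e2]
      rw [e3]
      symm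
      rw [List.filter_eq_self]
      intro b hb
      rcases (mem_part hx).1 hb with ⟨_, h1⟩ | ⟨h1, _⟩
      · simp only [ne_eq, decide_not, Bool.not_eq_eq_eq_not, Bool.not_true, decide_eq_false_iff_not]
        intro h2; have := hx (h1.trans h2); omega
      · simp only [ne_eq, decide_not, Bool.not_eq_eq_eq_not, Bool.not_true, decide_eq_false_iff_not]
        intro h2; have := hx (h1.trans h2); omega
    · subst h'
      rw [wd_succ, ← del_sw_succ, key i (sw_left i x)]
      have : (part a x i).filter (fun b => b ≠ x (i + 1)) = [] := by
        unfold part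
        split_ifs with h1 h2
        · simp
        · exact absurd h2.symm ha
        · simp
      rw [this, List.nil_append]
    · rcases Nat.lt_or_ge p i with h'' | h''
      · rw [wd_gt R h'', loc_cons, ← del_sw_gt x h'', key p (sw_other x (by omega) (by omega))]
        congr 1
        have h1 : i - 1 + 1 = i := by omega
        have e1 : del p x (i - 1) = x i := by
          unfold del; rw [if_neg (by omega), h1]
        have e2 : del p x (i - 1 + 1) = x (i + 1) := by
          unfold del; rw [if_neg (by omega), h1]
        have e3 : part a (del p x) (i - 1) = part a x i := by unfold part; rw [e1, e2]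
        rw [e3]
        symm
        rw [List.filter_eq_self]
        intro b hb
        rcases (mem_part hx).1 hb with ⟨_, h1⟩ | ⟨h1, _⟩
        · simp only [ne_eq, decide_not, Bool.not_eq_eq_eq_not, Bool.not_true, decide_eq_false_iff_not]
          intro h2; have := hx (h1.trans h2); omega
        · simp only [ne_eq, decide_not, Bool.not_eq_eq_eq_not, Bool.not_true, decide_eq_false_iff_not]
          intro h2; have := hx (h1.trans h2); omega
      · have hpi : i = p := by omega
        subst hpi
        rw [wd_eq, ← del_sw_eq, key (i + 1) (sw_right i x)]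
        have : (part a x i).filter (fun b => b ≠ x i) = [] := by
          unfold part
          split_ifs with h1 h2
          · exact absurd h1.symm ha
          · simp
          · simp
        rw [this, List.nil_append]

/-- an inverted pair stays inverted and never crosses again -/
lemma inv_stays {x : St} (hx : Function.Injective x) {R : List ℕ} (h : Red x R) {u v : ℕ}
    (huv : u < v) (hi : x v < x u) :
    x v ∉ loc (x u) x R ∧ x u ∉ loc (x v) x R ∧ fin u R < fin v R := by
  induction R generalizing x u v with
  | nil => exact ⟨by simp, by simp, huv⟩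
  | cons i R ih =>
    rw [Red_cons] at h
    have hlt : mv u i < mv v i := by
      unfold mv
      by_cases h1 : i = u
      · by_cases h2 : i + 1 = v
        · subst h1; subst h2; omega
        · split_ifs <;> omega
      · split_ifs <;> omega
    have := ih (x := sw i x) (sw_inj hx) h.2 hlt (by rw [sw_mv, sw_mv]; exact hi)
    rw [sw_mv, sw_mv] at this
    have hnp : x v ∉ part (x u) x i := by
      rw [mem_part hx]
      rintro (⟨h1, h2⟩ | ⟨h1, h2⟩)
      · have := hx h1; have := hx h2; subst_vars; omega
      · have := hx h1; have := hx h2; omega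
    have hnp' : x u ∉ part (x v) x i := by
      rw [part_mem_symm hx]; exact hnp
    refine ⟨?_, ?_, this.2.2⟩
    · rw [loc_cons, List.mem_append]; exact fun hh => hh.elim hnp this.1
    · rw [loc_cons, List.mem_append]; exact fun hh => hh.elim hnp' this.2.1

/-- a pair in order crosses iff it ends up inverted -/
lemma cross_iff {x : St} (hx : Function.Injective x) {R : List ℕ} (h : Red x R) {u v : ℕ}
    (huv : u < v) (hi : x u < x v) :
    (x v ∈ loc (x u) x R ↔ fin v R < fin u R) := by
  induction R generalizing x u v with
  | nil => simp; omega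
  | cons i R ih =>
    rw [Red_cons] at h
    by_cases hc : i = u ∧ i + 1 = v
    · obtain ⟨rfl, rfl⟩ := hc
      have h1 : x (i + 1) ∈ part (x i) x i := by simp [part]
      have h2 : mv i i = i + 1 := by simp [mv]
      have h3 : mv (i + 1) i = i := by simp [mv]
      have := inv_stays (sw_inj (i := i) hx) h.2 (u := i) (v := i + 1) (by omega)
        (by rw [sw_left, sw_right]; exact hi)
      rw [fin_cons, fin_cons, h2, h3]
      simp [h1, this.2.2]
    · have hlt : mv u i < mv v i := by
        unfold mv
        split_ifs <;> omega
      have := ih (x := sw i x) (sw_inj hx) h.2 hlt (by rw [sw_mv, sw_mv]; exact hi)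
      rw [sw_mv, sw_mv] at this
      have hnp : x v ∉ part (x u) x i := by
        rw [mem_part hx]
        rintro (⟨h1, h2⟩ | ⟨h1, h2⟩)
        · exact hc ⟨hx h1, hx h2⟩
        · have := hx h1; have := hx h2; omega
      rw [loc_cons, List.mem_append, fin_cons, fin_cons, ← this]
      tauto

lemma loc_nodup {x : St} (hx : Function.Injective x) {R : List ℕ} (h : Red x R) (a : ℕ) :
    (loc a x R).Nodup := by
  induction R generalizing x with
  | nil => simp
  | cons i R ih =>
    rw [Red_cons] at h
    rw [loc_cons]
    refine List.Nodup.append ?_ (ih (sw_inj hx) h.2) ?_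
    · unfold part; split_ifs <;> simp
    · intro b hb hb'
      have hst := inv_stays (sw_inj (i := i) hx) h.2 (u := i) (v := i + 1) (by omega)
        (by rw [sw_left, sw_right]; exact h.1)
      rw [sw_left, sw_right] at hst
      rcases (mem_part hx).1 hb with ⟨h1, h2⟩ | ⟨h1, h2⟩
      · subst h1; subst h2; exact hst.2.1 hb'
      · subst h1; subst h2; exact hst.1 hb'

lemma loc_self {x : St} (hx : Function.Injective x) (R : List ℕ) (a : ℕ) : a ∉ loc a x R := by
  induction R generalizing x with
  | nil => simp
  | cons i R ih =>
    rw [loc_cons, List.mem_append]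
    rintro (h | h)
    · rcases (mem_part hx).1 h with ⟨h1, h2⟩ | ⟨h1, h2⟩ <;> (have := hx (h1.trans h2.symm); omega)
    · exact ih (sw_inj hx) h

/-- labels occurring in crossing lists are labels of the state -/
lemma loc_range {x : St} {R : List ℕ} {a b : ℕ} (h : b ∈ loc a x R) : ∃ u, x u = b := by
  induction R generalizing x with
  | nil => simp at h
  | cons i R ih =>
    rw [loc_cons, List.mem_append] at h
    rcases h with h | h
    · unfold part at h
      split_ifs at h with h1 h2
      · exact ⟨i + 1, (List.mem_singleton.1 h).symm⟩
      · exact ⟨i, (List.mem_singleton.1 h).symm⟩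
      · simp at h
    · obtain ⟨u, hu⟩ := ih h
      exact ⟨mv u i, by rw [← sw_eq i u x]; exact hu⟩

lemma fin_lt {N : ℕ} {R : List ℕ} (h : ∀ i ∈ R, i + 1 < N) {u : ℕ} (hu : u < N) : fin u R < N := by
  induction R generalizing u with
  | nil => exact hu
  | cons i R ih =>
    rw [fin_cons]
    refine ih (fun k hk => h k (by simp [hk])) ?_
    have := h i (by simp)
    unfold mv; split_ifs <;> omega

lemma fin_ge {N : ℕ} {R : List ℕ} (h : ∀ i ∈ R, i + 1 < N) {u : ℕ} (hu : N ≤ u) : fin u R = u := by
  induction R generalizing u with
  | nil => rfl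
  | cons i R ih =>
    have := h i (by simp)
    have hm : mv u i = u := by unfold mv; split_ifs <;> omega
    rw [fin_cons, hm]
    exact ih (fun k hk => h k (by simp [hk])) hu

/-- split a word at a crossing -/
lemma loc_split {x : St} (hx : Function.Injective x) {R : List ℕ} {a b : ℕ} (h : b ∈ loc a x R) :
    ∃ A i B, R = A ++ i :: B ∧ ((run x A i = a ∧ run x A (i + 1) = b) ∨
      (run x A i = b ∧ run x A (i + 1) = a)) := by
  induction R generalizing x with
  | nil => simp at h
  | cons i R ih =>
    rw [loc_cons, List.mem_append] at h
    rcases h with h | h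
    · exact ⟨[], i, R, rfl, (mem_part hx).1 h⟩
    · obtain ⟨A, k, B, hR, hh⟩ := ih (sw_inj hx) h
      exact ⟨i :: A, k, B, by rw [hR]; rfl, hh⟩

end Q120.BS
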